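import Mathlib

set_option autoImplicit false

/-!
Covers and splittability, following the problem file.
-/

namespace Pool.Agent.MP_bc74b8_gt

/-- `U` is an open omega-cover of the space `Y`: all members are open, `Y` itself is not a member,
and every finite subset of `Y` is contained in some member. -/
def IsOmegaCover {Y : Type*} [TopologicalSpace Y] (U : Set (Set Y)) : Prop :=
  (∀ u ∈ U, IsOpen u) ∧ Set.univ ∉ U ∧ ∀ F : Finset Y, ∃ u ∈ U, (↑F : Set Y) ⊆ u

/-- `U` is an open tau-cover of the space `Y`: all members are open, `Y` itself is not a member,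
every point lies in infinitely many members, and for all `x`, `y` at least one of the sets
of members containing one of the points but not the other is finite. -/
def IsTauCover {Y : Type*} [TopologicalSpace Y] (U : Set (Set Y)) : Prop :=
  (∀ u ∈ U, IsOpen u) ∧ Set.univ ∉ U ∧ (∀ y : Y, {u ∈ U | y ∈ u}.Infinite) ∧
    ∀ x y : Y, {u ∈ U | x ∈ u ∧ y ∉ u}.Finite ∨ {u ∈ U | y ∈ u ∧ x ∉ u}.Finite

/-- `U` is an open gamma-cover of the space `Y`: all members are open, `Y` itself is not a member,
`U` is infinite and every point lies in all but finitely many members. -/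
def IsGammaCover {Y : Type*} [TopologicalSpace Y] (U : Set (Set Y)) : Prop :=
  (∀ u ∈ U, IsOpen u) ∧ Set.univ ∉ U ∧ U.Infinite ∧ ∀ y : Y, {u ∈ U | y ∉ u}.Finite

/-- `Split A B`: every family in the class `A` is the union of two disjoint subfamilies
each of which contains a subfamily in the class `B`. -/
def Split {Y : Type*} (A B : Set (Set Y) → Prop) : Prop :=
  ∀ U : Set (Set Y), A U → ∃ V W : Set (Set Y), V ∪ W = U ∧ Disjoint V W ∧
    (∃ V' ⊆ V, B V') ∧ (∃ W' ⊆ W, B W')

/-- `Y` has the property `Split(Omega, Omega)`. -/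
def SplitOmegaOmega (Y : Type*) [TopologicalSpace Y] : Prop :=
  Split (Y := Y) IsOmegaCover IsOmegaCover

/-- `Y` has the property `Split(Omega, Tau)`. -/
def SplitOmegaTau (Y : Type*) [TopologicalSpace Y] : Prop :=
  Split (Y := Y) IsOmegaCover IsTauCover

/-- `Y` has the property `Split(Omega, Gamma)`. -/
def SplitOmegaGamma (Y : Type*) [TopologicalSpace Y] : Prop :=
  Split (Y := Y) IsOmegaCover IsGammaCover

/-- `Y` has the property `Split(Tau, Tau)`. -/
def SplitTauTau (Y : Type*) [TopologicalSpace Y] : Prop :=
  Split (Y := Y) IsTauCover IsTauCover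

/-- The ultrafilter `p` on the natural numbers has a base which is linearly ordered by
almost inclusion. Nonprincipal ultrafilters with this property are the simple P-points. -/
def HasLinearBase (p : Ultrafilter ℕ) : Prop :=
  ∃ B : Set (Set ℕ), (∀ b ∈ B, b ∈ p) ∧ (∀ A ∈ p, ∃ b ∈ B, b ⊆ A) ∧
    ∀ b ∈ B, ∀ c ∈ B, (b \ c).Finite ∨ (c \ b).Finite

end Pool.Agent.MP_bc74b8_gt
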