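import Mathlib
import Pool.Agent.Lib.MP_bc74b8_gt.Defs

set_option autoImplicit false

namespace Pool.Agent.MP_bc74b8_gt

open Set MeasureTheory

/-- every open omega-cover contains an open tau-cover -/
def BinOT (Y : Type*) [TopologicalSpace Y] : Prop :=
  ∀ U : Set (Set Y), IsOmegaCover U → ∃ V ⊆ U, IsTauCover V

/-- every open omega-cover contains an open gamma-cover -/
def BinOG (Y : Type*) [TopologicalSpace Y] : Prop :=
  ∀ U : Set (Set Y), IsOmegaCover U → ∃ V ⊆ U, IsGammaCover V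

lemma SplitOmegaTau.binOT {Y : Type*} [TopologicalSpace Y] (h : SplitOmegaTau Y) : BinOT Y := by
  intro U hU
  obtain ⟨V, W, hVW, -, ⟨V', hV', hV''⟩, -⟩ := h U hU
  exact ⟨V', hV'.trans (hVW ▸ subset_union_left), hV''⟩

lemma SplitOmegaGamma.binOG {Y : Type*} [TopologicalSpace Y] (h : SplitOmegaGamma Y) :
    BinOG Y := by
  intro U hU
  obtain ⟨V, W, hVW, -, ⟨V', hV', hV''⟩, -⟩ := h U hU
  exact ⟨V', hV'.trans (hVW ▸ subset_union_left), hV''⟩

lemma infinite_split {α : Type*} {V : Set α} (hV : V.Infinite) :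
    ∃ A B : Set α, A ⊆ V ∧ B ⊆ V ∧ Disjoint A B ∧ A.Infinite ∧ B.Infinite := by
  have := hV.to_subtype
  let e := Infinite.natEmbedding V
  refine ⟨range (fun n : ℕ => ((e (2 * n) : V) : α)), range (fun n : ℕ => ((e (2 * n + 1) : V) : α)),
    ?_, ?_, ?_, ?_, ?_⟩
  · rintro _ ⟨n, rfl⟩; exact (e (2 * n)).2
  · rintro _ ⟨n, rfl⟩; exact (e (2 * n + 1)).2
  · rw [Set.disjoint_left]
    rintro _ ⟨n, rfl⟩ ⟨m, hm⟩
    have := e.injective (Subtype.ext hm)
    omega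
  · apply infinite_range_of_injective
    intro n m h
    have := e.injective (Subtype.ext h)
    omega
  · apply infinite_range_of_injective
    intro n m h
    have := e.injective (Subtype.ext h)
    omega

lemma IsGammaCover.mono {Y : Type*} [TopologicalSpace Y] {U V : Set (Set Y)}
    (h : IsGammaCover U) (hV : V ⊆ U) (hinf : V.Infinite) : IsGammaCover V :=
  ⟨fun u hu => h.1 u (hV hu), fun hu => h.2.1 (hV hu), hinf,
    fun y => (h.2.2.2 y).subset (fun u hu => ⟨hV hu.1, hu.2⟩)⟩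

lemma IsGammaCover.isTauCover {Y : Type*} [TopologicalSpace Y] {U : Set (Set Y)}
    (h : IsGammaCover U) : IsTauCover U := by
  refine ⟨h.1, h.2.1, fun y => ?_, fun x y => Or.inl ?_⟩
  · have := h.2.2.1.sdiff (h.2.2.2 y)
    refine this.mono ?_
    rintro u ⟨hu, hu'⟩
    refine ⟨hu, ?_⟩
    by_contra hy
    exact hu' ⟨hu, hy⟩
  · exact (h.2.2.2 y).subset (fun u hu => ⟨hu.1, hu.2.2⟩)

lemma BinOG.splitOmegaGamma {Y : Type*} [TopologicalSpace Y] (h : BinOG Y) :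
    SplitOmegaGamma Y := by
  intro U hU
  obtain ⟨V, hVU, hV⟩ := h U hU
  obtain ⟨A, B, hA, hB, hAB, hAi, hBi⟩ := infinite_split hV.2.2.1
  refine ⟨A, U \ A, ?_, disjoint_sdiff_right, ⟨A, Subset.rfl, hV.mono hA hAi⟩,
    ⟨B, ?_, hV.mono hB hBi⟩⟩
  · rw [union_sdiff_self, union_eq_self_of_subset_left (hA.trans hVU)]
  · intro u hu
    exact ⟨hVU (hB hu), fun h' => Set.disjoint_left.1 hAB h' hu⟩

lemma SplitOmegaGamma.splitOmegaTau {Y : Type*} [TopologicalSpace Y] (h : SplitOmegaGamma Y) :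
    SplitOmegaTau Y := by
  intro U hU
  obtain ⟨V, W, hVW, hd, ⟨V', hV', hV''⟩, ⟨W', hW', hW''⟩⟩ := h U hU
  exact ⟨V, W, hVW, hd, ⟨V', hV', hV''.isTauCover⟩, ⟨W', hW', hW''.isTauCover⟩⟩

/-- the property passes to continuous images -/
lemma BinOT.image {Y Z : Type*} [TopologicalSpace Y] [TopologicalSpace Z] {f : Z → Y}
    (hf : Continuous f) (hs : Function.Surjective f) (h : BinOT Z) : BinOT Y := by
  intro U hU
  have hinj : Function.Injective (fun u : Set Y => f ⁻¹' u) := hs.preimage_injective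
  have hω : IsOmegaCover ((fun u : Set Y => f ⁻¹' u) '' U) := by
    refine ⟨?_, ?_, ?_⟩
    · rintro _ ⟨u, hu, rfl⟩
      exact (hU.1 u hu).preimage hf
    · rintro ⟨u, hu, hu'⟩
      apply hU.2.1
      have : u = univ := hinj (by simpa using hu')
      exact this ▸ hu
    · intro F
      classical
      obtain ⟨u, hu, hFu⟩ := hU.2.2 (F.image f)
      refine ⟨_, ⟨u, hu, rfl⟩, ?_⟩
      intro z hz
      exact hFu (by simpa using ⟨z, hz, rfl⟩)
  obtain ⟨V, hVU, hV⟩ := h _ hω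
  have key : ∀ P : Set Y → Prop, ∀ Q : Set Z → Prop, (∀ u, P u ↔ Q (f ⁻¹' u)) →
      {v ∈ V | Q v} = (fun u : Set Y => f ⁻¹' u) '' {u | u ∈ U ∧ f ⁻¹' u ∈ V ∧ P u} := by
    intro P Q hPQ
    ext v
    constructor
    · rintro ⟨hv, hq⟩
      obtain ⟨u, hu, rfl⟩ := hVU hv
      exact ⟨u, ⟨hu, hv, (hPQ u).2 hq⟩, rfl⟩
    · rintro ⟨u, ⟨hu, hv, hp⟩, rfl⟩
      exact ⟨hv, (hPQ u).1 hp⟩
  refine ⟨{u ∈ U | f ⁻¹' u ∈ V}, fun u hu => hu.1, fun u hu => hU.1 u hu.1,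
    fun hu => hU.2.1 hu.1, ?_, ?_⟩
  · intro y
    obtain ⟨z, rfl⟩ := hs y
    have h1 := hV.2.2.1 z
    rw [key (fun u => f z ∈ u) (fun v => z ∈ v) (fun u => Iff.rfl)] at h1
    have h2 := h1.of_image
    refine h2.mono ?_
    rintro u ⟨hu, hu', hu''⟩
    exact ⟨⟨hu, hu'⟩, hu''⟩
  · intro x y
    obtain ⟨a, rfl⟩ := hs x
    obtain ⟨b, rfl⟩ := hs y
    rcases hV.2.2.2 a b with h1 | h1
    · left
      rw [key (fun u => f a ∈ u ∧ f b ∉ u) (fun v => a ∈ v ∧ b ∉ v) (fun u => Iff.rfl)] at h1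
      have h2 := h1.of_finite_image hinj.injOn
      refine h2.subset ?_
      rintro u ⟨⟨hu, hu'⟩, hu''⟩
      exact ⟨hu, hu', hu''⟩
    · right
      rw [key (fun u => f b ∈ u ∧ f a ∉ u) (fun v => b ∈ v ∧ a ∉ v) (fun u => Iff.rfl)] at h1
      have h2 := h1.of_finite_image hinj.injOn
      refine h2.subset ?_
      rintro u ⟨⟨hu, hu'⟩, hu''⟩
      exact ⟨hu, hu', hu''⟩

/-- enlarging / transporting a gamma-cover -/
lemma gamma_transport {X Z : Type*} [TopologicalSpace Z] {U : Set (Set Z)}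
    (hUo : ∀ u ∈ U, IsOpen u) (hUne : univ ∉ U) {G : Set (Set X)} (hG : G.Infinite)
    (φ : Set X → Set Z) (hφ : ∀ C ∈ G, φ C ∈ U) (hfin : ∀ z, {C ∈ G | z ∉ φ C}.Finite) :
    IsGammaCover (φ '' G) := by
  refine ⟨?_, ?_, ?_, ?_⟩
  · rintro _ ⟨C, hC, rfl⟩; exact hUo _ (hφ C hC)
  · rintro ⟨C, hC, h⟩; exact hUne (h ▸ hφ C hC)
  · intro hF
    -- some fibre is infinite
    have : ∃ v ∈ φ '' G, {C ∈ G | φ C = v}.Infinite := by
      by_contra hcon
      push Not at hcon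
      apply hG
      have : G = ⋃ v ∈ φ '' G, {C ∈ G | φ C = v} := by
        ext C
        simp only [mem_image, mem_iUnion, mem_ofPred_eq, exists_prop]
        constructor
        · intro hC; exact ⟨φ C, ⟨C, hC, rfl⟩, hC, rfl⟩
        · rintro ⟨v, -, hC, -⟩; exact hC
      rw [this]
      exact hF.biUnion (fun v hv => by simpa using hcon v hv)
    obtain ⟨v, ⟨C, hC, rfl⟩, hinf⟩ := this
    apply hUne
    have : φ C = univ := by
      rw [eq_univ_iff_forall]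
      intro z
      by_contra hz
      apply hinf
      refine (hfin z).subset ?_
      rintro D ⟨hD, hD'⟩
      exact ⟨hD, hD' ▸ hz⟩
    exact this ▸ hφ C hC
  · intro z
    refine ((hfin z).image φ).subset ?_
    rintro _ ⟨⟨C, hC, rfl⟩, hz⟩
    exact ⟨C, ⟨hC, hz⟩, rfl⟩

/-- the gamma property passes to finite powers -/
lemma BinOG.pi {X : Type*} [TopologicalSpace X] (h : BinOG X) (n : ℕ) :
    BinOG (Fin n → X) := by
  classical
  intro 𝒱 h𝒱
  have hω : IsOmegaCover {u : Set X | IsOpen u ∧ u ≠ univ ∧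
      ∃ v ∈ 𝒱, Set.pi univ (fun _ : Fin n => u) ⊆ v} := by
    refine ⟨fun u hu => hu.1, fun hu => hu.2.1 rfl, ?_⟩
    intro F
    obtain ⟨v, hv, hFv⟩ := h𝒱.2.2 (Fintype.piFinset (fun _ : Fin n => F))
    have hvo := h𝒱.1 v hv
    rw [isOpen_pi_iff'] at hvo
    -- boxes
    have hbox : ∀ x : Fin n → X, ∃ u : Fin n → Set X,
        x ∈ Fintype.piFinset (fun _ : Fin n => F) →
        (∀ i, IsOpen (u i) ∧ x i ∈ u i) ∧ Set.pi univ u ⊆ v := by
      intro x
      by_cases hx : x ∈ Fintype.piFinset (fun _ : Fin n => F)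
      · obtain ⟨u, hu⟩ := hvo x (hFv hx)
        exact ⟨u, fun _ => hu⟩
      · exact ⟨fun _ => ∅, fun h' => absurd h' hx⟩
    choose u hu using hbox
    -- neighbourhood of `p`
    let N : X → Set X := fun p =>
      ⋂ x ∈ Fintype.piFinset (fun _ : Fin n => F), ⋂ i ∈ {i : Fin n | x i = p}, u x i
    have hNo : ∀ p, IsOpen (N p) := by
      intro p
      refine isOpen_biInter_finset (fun x hx => ?_)
      exact (Set.toFinite _).isOpen_biInter (fun i _ => ((hu x hx).1 i).1)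
    have hNp : ∀ p, p ∈ N p := by
      intro p
      simp only [N, mem_iInter]
      intro x hx i hi
      have := ((hu x hx).1 i).2
      rwa [show x i = p from hi] at this
    have hsub : Set.pi univ (fun _ : Fin n => ⋃ p ∈ F, N p) ⊆ v := by
      intro y hy
      have : ∀ i, ∃ p ∈ F, y i ∈ N p := by
        intro i
        simpa using hy i (mem_univ i)
      choose x hxF hxN using this
      have hx : x ∈ Fintype.piFinset (fun _ : Fin n => F) := by simpa using hxF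
      apply (hu x hx).2
      intro i _
      have h1 := hxN i
      simp only [N, mem_iInter] at h1
      exact h1 x hx i rfl
    refine ⟨⋃ p ∈ F, N p, ⟨isOpen_biUnion (fun p _ => hNo p), ?_, v, hv, hsub⟩, ?_⟩
    · intro huniv
      apply h𝒱.2.1
      have : v = univ := by
        rw [eq_univ_iff_forall]
        intro y
        apply hsub
        rw [huniv]
        simp
      exact this ▸ hv
    · intro p hp
      exact mem_biUnion hp (hNp p)
  obtain ⟨G, hGU, hG⟩ := h _ hω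
  have : ∀ C : Set X, ∃ v : Set (Fin n → X), C ∈ G →
      v ∈ 𝒱 ∧ Set.pi univ (fun _ : Fin n => C) ⊆ v := by
    intro C
    by_cases hC : C ∈ G
    · obtain ⟨-, -, v, hv, hv'⟩ := hGU hC
      exact ⟨v, fun _ => ⟨hv, hv'⟩⟩
    · exact ⟨∅, fun h' => absurd h' hC⟩
  choose φ hφ using this
  refine ⟨φ '' G, ?_, gamma_transport h𝒱.1 h𝒱.2.1 hG.2.2.1 φ (fun C hC => (hφ C hC).1) ?_⟩
  · rintro _ ⟨C, hC, rfl⟩; exact (hφ C hC).1
  · intro z
    have hfin : (⋃ i : Fin n, {C ∈ G | z i ∉ C}).Finite :=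
      Set.finite_iUnion (fun i => hG.2.2.2 (z i))
    refine hfin.subset ?_
    rintro C ⟨hC, hz⟩
    rw [mem_iUnion]
    by_contra hcon
    push Not at hcon
    apply hz
    apply (hφ C hC).2
    intro i _
    by_contra hi
    exact hcon i ⟨hC, hi⟩

/-- the combinatorial step -/
lemma BinOT.binOG_of_clopen {X : Type*} [TopologicalSpace X] [T1Space X]
    (hclopen : ∀ (p : X) (u : Set X), IsOpen u → p ∈ u → ∃ c, IsClopen c ∧ p ∈ c ∧ c ⊆ u)
    (h : BinOT (X × X)) : BinOG X := by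
  classical
  intro 𝒰 h𝒰
  -- X is nonempty
  obtain ⟨u0, hu0, -⟩ := h𝒰.2.2 ∅
  have hne : u0 ≠ univ := fun h' => h𝒰.2.1 (h' ▸ hu0)
  obtain ⟨x₁, -⟩ := (ne_univ_iff_exists_notMem u0).1 hne
  let V : Set X → Set (X × X) := fun C => (C ×ˢ C) ∪ ((Cᶜ ×ˢ Cᶜ) ∩ {z | z.1 ≠ x₁})
  have hV1 : ∀ C y, (x₁, y) ∈ V C ↔ x₁ ∈ C ∧ y ∈ C := by
    intro C y
    simp [V]
  let 𝒞 : Set (Set X) := {C | IsClopen C ∧ C ≠ univ ∧ ∃ u ∈ 𝒰, C ⊆ u}
  have hω : IsOmegaCover (V '' 𝒞) := by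
    refine ⟨?_, ?_, ?_⟩
    · rintro _ ⟨C, hC, rfl⟩
      have h1 : IsOpen (C ×ˢ C) := hC.1.isOpen.prod hC.1.isOpen
      have h2 : IsOpen (Cᶜ ×ˢ Cᶜ) := hC.1.compl.isOpen.prod hC.1.compl.isOpen
      have h3 : IsOpen {z : X × X | z.1 ≠ x₁} :=
        (isOpen_compl_singleton (x := x₁)).preimage continuous_fst
      exact h1.union (h2.inter h3)
    · rintro ⟨C, hC, hC'⟩
      obtain ⟨w, hw⟩ := (ne_univ_iff_exists_notMem C).1 hC.2.1
      have : (x₁, w) ∈ V C := by rw [hC']; trivial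
      rw [hV1] at this
      exact hw this.2
    · intro F
      obtain ⟨u, hu, hFu⟩ := h𝒰.2.2 (F.image Prod.fst ∪ F.image Prod.snd)
      have : ∀ p : X, ∃ c, p ∈ F.image Prod.fst ∪ F.image Prod.snd →
          IsClopen c ∧ p ∈ c ∧ c ⊆ u := by
        intro p
        by_cases hp : p ∈ F.image Prod.fst ∪ F.image Prod.snd
        · obtain ⟨c, hc⟩ := hclopen p u (h𝒰.1 u hu) (hFu hp)
          exact ⟨c, fun _ => hc⟩
        · exact ⟨∅, fun h' => absurd h' hp⟩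
      choose c hc using this
      let C : Set X := ⋃ p ∈ F.image Prod.fst ∪ F.image Prod.snd, c p
      have hCu : C ⊆ u := iUnion₂_subset (fun p hp => (hc p hp).2.2)
      have hCF : ∀ p ∈ F.image Prod.fst ∪ F.image Prod.snd, p ∈ C := fun p hp =>
        mem_biUnion (s := (↑(F.image Prod.fst ∪ F.image Prod.snd) : Set X)) hp (hc p hp).2.1
      have hCc : IsClopen C := by
        refine ⟨?_, ?_⟩
        · exact Set.Finite.isClosed_biUnion (Finset.finite_toSet _) (fun p hp => (hc p hp).1.1)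
        · exact isOpen_biUnion (fun p hp => (hc p hp).1.2)
      refine ⟨V C, ⟨C, ⟨hCc, ?_, u, hu, hCu⟩, rfl⟩, ?_⟩
      · intro hC
        apply h𝒰.2.1
        have : u = univ := univ_subset_iff.1 (hC ▸ hCu)
        exact this ▸ hu
      · rintro ⟨a, b⟩ hab
        left
        refine ⟨hCF a ?_, hCF b ?_⟩
        · exact Finset.mem_union_left _ (Finset.mem_image.2 ⟨(a, b), hab, rfl⟩)
        · exact Finset.mem_union_right _ (Finset.mem_image.2 ⟨(a, b), hab, rfl⟩)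
  obtain ⟨T, hTV, hT⟩ := h _ hω
  let Q : Set (Set X) := {C ∈ 𝒞 | x₁ ∈ C ∧ V C ∈ T}
  have hinj : InjOn V {C | x₁ ∈ C} := by
    intro C hC D hD hCD
    ext y
    have h1 := hV1 C y
    have h2 := hV1 D y
    have h3 : (x₁, y) ∈ V C ↔ (x₁, y) ∈ V D := by rw [hCD]
    constructor
    · intro hy; exact (h2.1 (h3.1 (h1.2 ⟨hC, hy⟩))).2
    · intro hy; exact (h1.1 (h3.2 (h2.2 ⟨hD, hy⟩))).2
  -- transfer of infinitude and finiteness
  have hinf : ∀ y, {C ∈ Q | y ∈ C}.Infinite := by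
    intro y
    have h1 := hT.2.2.1 (x₁, y)
    have h2 : {v ∈ T | (x₁, y) ∈ v} = V '' {C ∈ Q | y ∈ C} := by
      ext v
      constructor
      · rintro ⟨hv, hy⟩
        obtain ⟨C, hC, rfl⟩ := hTV hv
        rw [hV1] at hy
        exact ⟨C, ⟨⟨hC, hy.1, hv⟩, hy.2⟩, rfl⟩
      · rintro ⟨C, ⟨⟨hC, hx, hv⟩, hy⟩, rfl⟩
        exact ⟨hv, (hV1 C y).2 ⟨hx, hy⟩⟩
    rw [h2] at h1
    exact h1.of_image
  have hlin : ∀ z w : X × X, {C ∈ Q | z ∈ V C ∧ w ∉ V C}.Finite ∨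
      {C ∈ Q | w ∈ V C ∧ z ∉ V C}.Finite := by
    have key : ∀ z w : X × X, {v ∈ T | z ∈ v ∧ w ∉ v}.Finite →
        {C ∈ Q | z ∈ V C ∧ w ∉ V C}.Finite := by
      intro z w hzw
      refine Set.Finite.of_finite_image (f := V) (hzw.subset ?_) (hinj.mono ?_)
      · rintro _ ⟨C, ⟨hC, hC'⟩, rfl⟩
        exact ⟨hC.2.2, hC'⟩
      · rintro C ⟨hC, -⟩
        exact hC.2.1
    intro z w
    rcases hT.2.2.2 z w with h1 | h1
    · exact Or.inl (key _ _ h1)
    · exact Or.inr (key _ _ h1)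
  have hlin' : ∀ y w : X, {C ∈ Q | y ∈ C ∧ w ∉ C}.Finite ∨
      {C ∈ Q | w ∈ C ∧ y ∉ C}.Finite := by
    intro y w
    rcases hlin (x₁, y) (x₁, w) with h1 | h1
    · left
      refine h1.subset ?_
      rintro C ⟨hC, hy, hw⟩
      exact ⟨hC, (hV1 _ _).2 ⟨hC.2.1, hy⟩, fun h' => hw ((hV1 _ _).1 h').2⟩
    · right
      refine h1.subset ?_
      rintro C ⟨hC, hy, hw⟩
      exact ⟨hC, (hV1 _ _).2 ⟨hC.2.1, hy⟩, fun h' => hw ((hV1 _ _).1 h').2⟩
  -- some infinite subfamily of `Q` is a gamma family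
  have hγ : ∃ G ⊆ Q, G.Infinite ∧ ∀ y, {C ∈ G | y ∉ C}.Finite := by
    by_contra hcon
    push Not at hcon
    have hQinf : Q.Infinite := (hinf x₁).mono (fun C hC => hC.1)
    obtain ⟨y, hy⟩ := hcon Q Subset.rfl hQinf
    obtain ⟨w, hw⟩ := hcon {C ∈ Q | y ∈ C} (fun C hC => hC.1) (hinf y)
    have hw' : {C ∈ Q | w ∈ C ∧ y ∉ C}.Finite := by
      rcases hlin' y w with h1 | h1
      · exfalso
        refine hw (h1.subset ?_)
        rintro C ⟨⟨hC, hyC⟩, hwC⟩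
        exact ⟨hC, hyC, hwC⟩
      · exact h1
    rcases hlin (x₁, y) (y, w) with h1 | h1
    · refine hw (h1.subset ?_)
      rintro C ⟨⟨hC, hyC⟩, hwC⟩
      refine ⟨hC, (hV1 _ _).2 ⟨hC.2.1, hyC⟩, ?_⟩
      rintro (⟨-, h2⟩ | ⟨⟨h2, -⟩, -⟩)
      · exact hwC h2
      · exact h2 hyC
    · refine hy ((h1.union hw').subset ?_)
      rintro C ⟨hC, hyC⟩
      by_cases hwC : w ∈ C
      · exact Or.inr ⟨hC, hwC, hyC⟩
      · refine Or.inl ⟨hC, Or.inr ⟨⟨hyC, hwC⟩, ?_⟩, fun h' => hyC ((hV1 _ _).1 h').2⟩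
        intro h'
        apply hyC
        have h'' : y = x₁ := h'
        rw [h'']
        exact hC.2.1
  obtain ⟨G, hGQ, hG, hGf⟩ := hγ
  have : ∀ C : Set X, ∃ u : Set X, C ∈ G → u ∈ 𝒰 ∧ C ⊆ u := by
    intro C
    by_cases hC : C ∈ G
    · obtain ⟨⟨-, -, v, hv, hv'⟩, -⟩ := hGQ hC
      exact ⟨v, fun _ => ⟨hv, hv'⟩⟩
    · exact ⟨∅, fun h' => absurd h' hC⟩
  choose φ hφ using this
  refine ⟨φ '' G, ?_, gamma_transport h𝒰.1 h𝒰.2.1 hG φ (fun C hC => (hφ C hC).1) ?_⟩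
  · rintro _ ⟨C, hC, rfl⟩; exact (hφ C hC).1
  · intro z
    refine (hGf z).subset ?_
    rintro C ⟨hC, hz⟩
    exact ⟨hC, fun h' => hz ((hφ C hC).2 h')⟩

end Pool.Agent.MP_bc74b8_gt
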