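import Mathlib
import Pool.Agent.Lib.MP_bc74b8_gt.OmegaTau

set_option autoImplicit false

namespace Pool.Agent.MP_bc74b8_gt

open Set MeasureTheory
open scoped ENNReal

lemma meas_contra {J : Set ℝ} (hJ : MeasurableSet J) (hm0 : volume J ≠ 0) (hmtop : volume J ≠ ⊤)
    (G : ℕ → Set ℝ) (hG : ∀ n, MeasurableSet (G n))
    (hGm : ∀ n, volume (G n ∩ J) ≤ volume J / 3)
    (hinf : ∀ x ∈ J, {n | x ∈ G n}.Infinite)
    (hlin : ∀ x ∈ J, ∀ y ∈ J, {n | x ∈ G n ∧ y ∉ G n}.Finite ∨ {n | y ∈ G n ∧ x ∉ G n}.Finite) :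
    False := by
  set μ := volume.restrict J with hμ
  have hμu : μ univ = volume J := by simp [hμ]
  have : IsFiniteMeasure μ := ⟨by rw [hμu]; exact lt_top_iff_ne_top.2 hmtop⟩
  let S : Set (ℝ × ℝ) := ⋃ N : ℕ, ⋂ n : ℕ, ⋂ _ : N ≤ n, {p | p.1 ∈ G n → p.2 ∈ G n}
  have hS : MeasurableSet S := by
    refine MeasurableSet.iUnion (fun N => MeasurableSet.iInter (fun n => MeasurableSet.iInter
      (fun _ => ?_)))
    have : {p : ℝ × ℝ | p.1 ∈ G n → p.2 ∈ G n} = (Prod.fst ⁻¹' (G n))ᶜ ∪ Prod.snd ⁻¹' (G n) := by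
      ext p; simp [imp_iff_not_or]
    rw [this]
    exact ((measurable_fst (hG n)).compl).union (measurable_snd (hG n))
  have hsec : ∀ x ∈ J, μ (Prod.mk x ⁻¹' S) ≤ volume J / 3 := by
    intro x hx
    have hmono : Monotone (fun N : ℕ => ⋂ n : ℕ, ⋂ _ : N ≤ n, {y : ℝ | x ∈ G n → y ∈ G n}) := by
      intro N M hNM y hy
      simp only [mem_iInter, mem_ofPred_eq] at hy ⊢
      intro n hn
      exact hy n (hNM.trans hn)
    have hpre : Prod.mk x ⁻¹' S = ⋃ N : ℕ, ⋂ n : ℕ, ⋂ _ : N ≤ n, {y : ℝ | x ∈ G n → y ∈ G n} := by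
      ext y
      simp [S]
    rw [hpre, hmono.measure_iUnion]
    refine iSup_le (fun N => ?_)
    obtain ⟨n, hn, hNn⟩ := (hinf x hx).exists_gt N
    calc μ (⋂ n : ℕ, ⋂ _ : N ≤ n, {y : ℝ | x ∈ G n → y ∈ G n}) ≤ μ (G n) := by
          apply measure_mono
          intro y hy
          simp only [mem_iInter, mem_ofPred_eq] at hy
          exact hy n hNn.le hn
      _ = volume (G n ∩ J) := by rw [hμ, Measure.restrict_apply (hG n)]
      _ ≤ volume J / 3 := hGm n
  have hSm : (μ.prod μ) S ≤ volume J / 3 * volume J := by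
    rw [Measure.prod_apply hS]
    calc ∫⁻ x, μ (Prod.mk x ⁻¹' S) ∂μ ≤ ∫⁻ x, volume J / 3 ∂μ := by
          apply lintegral_mono_ae
          rw [hμ, ae_restrict_iff' hJ]
          exact Filter.Eventually.of_forall (fun x hx => hsec x hx)
      _ = volume J / 3 * volume J := by rw [lintegral_const, hμu]
  have hSm' : (μ.prod μ) (Prod.swap ⁻¹' S) ≤ volume J / 3 * volume J := by
    have : (μ.prod μ) (Prod.swap ⁻¹' S) = (μ.prod μ) S := by
      rw [← Measure.map_apply measurable_swap hS, Measure.prod_swap]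
    rw [this]; exact hSm
  have hcov : J ×ˢ J ⊆ S ∪ Prod.swap ⁻¹' S := by
    rintro ⟨x, y⟩ ⟨hx, hy⟩
    have key : ∀ x y : ℝ, {n | x ∈ G n ∧ y ∉ G n}.Finite → (x, y) ∈ S := by
      intro x y h
      obtain ⟨N, hN⟩ := h.bddAbove
      simp only [S, mem_iUnion, mem_iInter, mem_ofPred_eq]
      refine ⟨N + 1, fun n hn hxn => ?_⟩
      by_contra hyn
      have := hN ⟨hxn, hyn⟩
      omega
    rcases hlin x hx y hy with h | h
    · exact Or.inl (key x y h)
    · exact Or.inr (key y x h)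
  have htot : (μ.prod μ) (J ×ˢ J) = volume J * volume J := by
    rw [Measure.prod_prod]; simp [hμ]
  have h1 : volume J * volume J ≤ volume J / 3 * volume J + volume J / 3 * volume J := by
    calc volume J * volume J = (μ.prod μ) (J ×ˢ J) := htot.symm
      _ ≤ (μ.prod μ) (S ∪ Prod.swap ⁻¹' S) := measure_mono hcov
      _ ≤ (μ.prod μ) S + (μ.prod μ) (Prod.swap ⁻¹' S) := measure_union_le _ _
      _ ≤ _ := add_le_add hSm hSm'
  -- arithmetic
  have h2 : volume J = ENNReal.ofReal (volume J).toReal := (ENNReal.ofReal_toReal hmtop).symm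
  have hpos : 0 < (volume J).toReal := ENNReal.toReal_pos hm0 hmtop
  have h3 := (ENNReal.toReal_le_toReal (by finiteness) (by finiteness)).2 h1
  rw [ENNReal.toReal_add (by finiteness) (by finiteness)] at h3
  simp only [ENNReal.toReal_mul, ENNReal.toReal_div, ENNReal.toReal_ofNat] at h3
  nlinarith

lemma BinOT.no_interval {X : Set ℝ} (h : BinOT X) {a b : ℝ} (hab : a < b)
    (hsub : Icc a b ⊆ X) : False := by
  classical
  have hJv : volume (Icc a b) = ENNReal.ofReal (b - a) := Real.volume_Icc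
  have hJ0 : volume (Icc a b) ≠ 0 := by
    rw [hJv]; simpa using hab
  have hJt : volume (Icc a b) ≠ ⊤ := by rw [hJv]; exact ENNReal.ofReal_ne_top
  let G : Finset (ℚ × ℚ) → Set ℝ := fun s => ⋃ q ∈ s, Ioo (q.1 : ℝ) (q.2 : ℝ)
  have hGo : ∀ s, IsOpen (G s) := fun s => isOpen_biUnion (fun q _ => isOpen_Ioo)
  let U : Finset (ℚ × ℚ) → Set X := fun s => {x | (x : ℝ) ∈ G s ∨ (x : ℝ) ∉ Icc a b}
  let I : Set (Finset (ℚ × ℚ)) := {s | volume (G s ∩ Icc a b) ≤ volume (Icc a b) / 3}
  have hω : IsOmegaCover (U '' I) := by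
    refine ⟨?_, ?_, ?_⟩
    · rintro _ ⟨s, -, rfl⟩
      exact ((hGo s).preimage continuous_subtype_val).union
        ((isClosed_Icc.isOpen_compl).preimage continuous_subtype_val)
    · rintro ⟨s, hs, hs'⟩
      have h1 : Icc a b ⊆ G s := by
        intro x hx
        have : (⟨x, hsub hx⟩ : X) ∈ U s := by rw [hs']; trivial
        rcases this with h' | h'
        · exact h'
        · exact absurd hx h'
      have h2 : volume (Icc a b) ≤ volume (Icc a b) / 3 := by
        have : volume (G s ∩ Icc a b) ≤ volume (Icc a b) / 3 := hs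
        rwa [inter_eq_self_of_subset_right h1] at this
      have h3 : volume (Icc a b) / 3 < volume (Icc a b) := by
        rw [hJv, ← ENNReal.ofReal_ofNat 3, ← ENNReal.ofReal_div_of_pos (by norm_num)]
        exact (ENNReal.ofReal_lt_ofReal_iff (by linarith)).2 (by linarith)
      exact absurd h2 (not_le.2 h3)
    · intro F
      obtain ⟨ε, hε, hεF⟩ : ∃ ε : ℝ, 0 < ε ∧ (F.card : ℝ) * ε ≤ (b - a) / 3 := by
        refine ⟨(b - a) / 3 / (F.card + 1), ?_, ?_⟩
        · have : 0 < b - a := by linarith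
          positivity
        · rw [mul_div_assoc', div_le_iff₀ (by positivity)]
          have : 0 < b - a := by linarith
          nlinarith
      have hq : ∀ x : X, ∃ q : ℚ × ℚ, (q.1 : ℝ) < x ∧ (x : ℝ) < q.2 ∧ (q.2 : ℝ) - q.1 ≤ ε := by
        intro x
        obtain ⟨q1, h1, h1'⟩ := exists_rat_btwn (show (x : ℝ) - ε / 2 < x by linarith)
        obtain ⟨q2, h2, h2'⟩ := exists_rat_btwn (show (x : ℝ) < x + ε / 2 by linarith)
        exact ⟨(q1, q2), h1', h2, by simp only; linarith⟩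
      choose q hq1 hq2 hq3 using hq
      refine ⟨U (F.image q), ⟨F.image q, ?_, rfl⟩, ?_⟩
      · change volume (G (F.image q) ∩ Icc a b) ≤ volume (Icc a b) / 3
        calc volume (G (F.image q) ∩ Icc a b) ≤ volume (⋃ x ∈ F, Ioo ((q x).1 : ℝ) (q x).2) := by
              apply measure_mono
              rintro y ⟨hy, -⟩
              simp only [G, mem_iUnion] at hy ⊢
              obtain ⟨p, hp, hy⟩ := hy
              obtain ⟨x, hx, rfl⟩ := Finset.mem_image.1 hp
              exact ⟨x, hx, hy⟩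
          _ ≤ ∑ x ∈ F, volume (Ioo ((q x).1 : ℝ) (q x).2) := measure_biUnion_finset_le _ _
          _ ≤ ∑ x ∈ F, ENNReal.ofReal ε := by
              apply Finset.sum_le_sum
              intro x _
              rw [Real.volume_Ioo]
              exact ENNReal.ofReal_le_ofReal (hq3 x)
          _ = ENNReal.ofReal (F.card * ε) := by
              rw [Finset.sum_const, ENNReal.ofReal_mul (by positivity)]
              simp
          _ ≤ ENNReal.ofReal ((b - a) / 3) := ENNReal.ofReal_le_ofReal hεF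
          _ = volume (Icc a b) / 3 := by
              rw [hJv, ENNReal.ofReal_div_of_pos (by norm_num)]
              simp
      · intro x hx
        left
        simp only [G, mem_iUnion]
        exact ⟨q x, Finset.mem_image_of_mem _ hx, hq1 x, hq2 x⟩
  obtain ⟨T, hTU, hT⟩ := h _ hω
  have hTc : T.Countable := ((Set.to_countable I).image U).mono hTU
  have haX : a ∈ X := hsub (left_mem_Icc.2 hab.le)
  have hTi : T.Infinite := (hT.2.2.1 ⟨a, haX⟩).mono (fun u hu => hu.1)
  have : Infinite T := hTi.to_subtype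
  have : Countable T := hTc.to_subtype
  obtain ⟨e⟩ := nonempty_equiv_of_countable (α := ℕ) (β := T)
  have hs : ∀ n, ∃ s ∈ I, U s = (e n : Set X) := fun n => hTU (e n).2
  choose s hsI hsU using hs
  have hmem : ∀ (x : ℝ) (hx : x ∈ Icc a b) (n : ℕ),
      x ∈ G (s n) ↔ (⟨x, hsub hx⟩ : X) ∈ (e n : Set X) := by
    intro x hx n
    rw [← hsU n]
    simp only [U, mem_ofPred_eq]
    constructor
    · intro h'; exact Or.inl h'
    · rintro (h' | h')
      · exact h'
      · exact absurd hx h'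
  have hinj : Function.Injective (fun n => (e n : Set X)) :=
    Subtype.val_injective.comp e.injective
  refine meas_contra (J := Icc a b) measurableSet_Icc hJ0 hJt (fun n => G (s n))
    (fun n => (hGo _).measurableSet) (fun n => hsI n) ?_ ?_
  · intro x hx
    have h1 := hT.2.2.1 ⟨x, hsub hx⟩
    intro hfin
    apply h1
    refine (hfin.image (fun n => (e n : Set X))).subset ?_
    rintro u ⟨hu, hxu⟩
    refine ⟨e.symm ⟨u, hu⟩, ?_, by simp⟩
    change x ∈ G (s (e.symm ⟨u, hu⟩))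
    rw [hmem x hx]
    simpa using hxu
  · intro x hx y hy
    have key : ∀ x (hx : x ∈ Icc a b) y (hy : y ∈ Icc a b),
        {u ∈ T | (⟨x, hsub hx⟩ : X) ∈ u ∧ (⟨y, hsub hy⟩ : X) ∉ u}.Finite →
        {n | x ∈ G (s n) ∧ y ∉ G (s n)}.Finite := by
      intro x hx y hy hfin
      refine Set.Finite.of_finite_image (f := fun n => (e n : Set X)) (hfin.subset ?_)
        hinj.injOn
      rintro _ ⟨n, ⟨hn, hn'⟩, rfl⟩
      rw [hmem x hx] at hn
      rw [hmem y hy] at hn'
      exact ⟨(e n).2, hn, hn'⟩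
    rcases hT.2.2.2 ⟨x, hsub hx⟩ ⟨y, hsub hy⟩ with h1 | h1
    · exact Or.inl (key x hx y hy h1)
    · exact Or.inr (key y hy x hx h1)

lemma BinOT.clopen {X : Set ℝ} (h : BinOT X) (p : X) (u : Set X) (hu : IsOpen u) (hp : p ∈ u) :
    ∃ c, IsClopen c ∧ p ∈ c ∧ c ⊆ u := by
  obtain ⟨O, hO, rfl⟩ := isOpen_induced_iff.1 hu
  obtain ⟨ε, hε, hεO⟩ := Metric.isOpen_iff.1 hO p hp
  have hout : ∀ a b : ℝ, a < b → ∃ c, a < c ∧ c < b ∧ c ∉ X := by
    intro a b hab
    by_contra hcon
    push Not at hcon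
    refine h.no_interval (a := (2 * a + b) / 3) (b := (a + 2 * b) / 3) (by linarith) ?_
    intro c hc
    exact hcon c (by linarith [hc.1]) (by linarith [hc.2])
  obtain ⟨a, ha1, ha2, haX⟩ := hout ((p : ℝ) - ε) p (by linarith)
  obtain ⟨b, hb1, hb2, hbX⟩ := hout (p : ℝ) ((p : ℝ) + ε) (by linarith)
  have heq : (Subtype.val ⁻¹' Ioo a b : Set X) = Subtype.val ⁻¹' Icc a b := by
    ext x
    simp only [mem_preimage, mem_Ioo, mem_Icc]
    constructor
    · rintro ⟨h1, h2⟩; exact ⟨h1.le, h2.le⟩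
    · rintro ⟨h1, h2⟩
      refine ⟨lt_of_le_of_ne h1 ?_, lt_of_le_of_ne h2 ?_⟩
      · rintro rfl; exact haX x.2
      · rintro rfl; exact hbX x.2
  refine ⟨Subtype.val ⁻¹' Ioo a b, ⟨?_, isOpen_Ioo.preimage continuous_subtype_val⟩,
    ⟨ha2, hb1⟩, ?_⟩
  · rw [heq]; exact isClosed_Icc.preimage continuous_subtype_val
  · rintro x ⟨hx1, hx2⟩
    apply hεO
    rw [Metric.mem_ball, Real.dist_eq, abs_lt]
    constructor <;> linarith

/-- powers: main equivalence -/
theorem splitOmegaTau_pi_iff (X : Set ℝ) (n : ℕ) (hn : 2 ≤ n) :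
    SplitOmegaTau (Fin n → X) ↔ SplitOmegaGamma X := by
  constructor
  · intro h
    have h1 : BinOT (Fin n → X) := SplitOmegaTau.binOT h
    have h2 : BinOT (X × X) := by
      refine BinOT.image (f := fun g : Fin n → X => (g ⟨0, by omega⟩, g ⟨1, by omega⟩))
        (by fun_prop) ?_ h1
      rintro ⟨x, y⟩
      refine ⟨fun i => if i = ⟨0, by omega⟩ then x else y, ?_⟩
      simp
    have h3 : BinOT X := by
      refine BinOT.image (f := (Prod.fst : X × X → X)) continuous_fst ?_ h2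
      intro x
      exact ⟨(x, x), rfl⟩
    exact (h2.binOG_of_clopen h3.clopen).splitOmegaGamma
  · intro h
    exact ((SplitOmegaGamma.binOG h).pi n).splitOmegaGamma.splitOmegaTau

end Pool.Agent.MP_bc74b8_gt
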