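import Mathlib

set_option autoImplicit false

namespace Pool.Agent.MP_bc74b8_gt

open Set Topology MeasureTheory Filter

lemma polish_of_instances (α : Type*) [TopologicalSpace α] [SecondCountableTopology α]
    [TopologicalSpace.IsCompletelyMetrizableSpace α] : PolishSpace α := by
  constructor

instance polishCantor : PolishSpace (ℕ → Bool) := polish_of_instances _

/-- flip all coordinates from `k` on -/
def flipFrom (k : ℕ) (x : ℕ → Bool) : ℕ → Bool := fun n => if n < k then x n else !x n

lemma continuous_flipFrom (k : ℕ) : Continuous (flipFrom k) := by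
  refine continuous_pi (fun n => ?_)
  unfold flipFrom
  by_cases h : n < k
  · simp only [h, if_true]; exact continuous_apply n
  · simp only [h, if_false]
    exact (continuous_of_discreteTopology (f := not)).comp (continuous_apply n)

lemma flipFrom_flipFrom (k : ℕ) (x : ℕ → Bool) : flipFrom k (flipFrom k x) = x := by
  funext n
  unfold flipFrom
  by_cases h : n < k <;> simp [h]

/-- the flip as a homeomorphism -/
def flipHomeo (k : ℕ) : (ℕ → Bool) ≃ₜ (ℕ → Bool) where
  toFun := flipFrom k
  invFun := flipFrom k
  left_inv := flipFrom_flipFrom k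
  right_inv := flipFrom_flipFrom k
  continuous_toFun := continuous_flipFrom k
  continuous_invFun := continuous_flipFrom k

/-- A set of reals which behaves like a free ultrafilter is not analytic. -/
theorem not_analytic_of_ultra (q : Set (ℕ → Bool)) (hq : AnalyticSet q)
    (hcompl : ∀ k x, flipFrom k x ∈ q ↔ x ∉ q) : False := by
  have hpre : ∀ k, flipFrom k ⁻¹' q = qᶜ := by
    intro k; ext x; exact hcompl k x
  have hqc : AnalyticSet qᶜ := by
    rw [← hpre 0]
    exact hq.preimage (continuous_flipFrom 0)
  have hmeas : @MeasurableSet _ (borel (ℕ → Bool)) q := by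
    borelize (ℕ → Bool)
    exact hq.measurableSet_of_compl hqc
  obtain ⟨u, huo, hqu⟩ : ∃ u : Set (ℕ → Bool), IsOpen u ∧ q =ᶠ[residual _] u := by
    borelize (ℕ → Bool)
    exact hmeas.residualEq_isOpen
  have hR : {x | x ∈ q ↔ x ∈ u} ∈ residual (ℕ → Bool) := by
    have := Filter.eventuallyEq_set.1 hqu
    exact this
  have hRk : ∀ k, {x | x ∉ q ↔ flipFrom k x ∈ u} ∈ residual (ℕ → Bool) := by
    intro k
    have h1 := tendsto_residual_of_isOpenMap (continuous_flipFrom k)
      (flipHomeo k).isOpenMap hR
    refine Filter.mem_of_superset h1 ?_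
    intro x hx
    simp only [mem_preimage, mem_ofPred_eq] at hx ⊢
    rw [← hcompl k x]
    exact hx
  rcases u.eq_empty_or_nonempty with rfl | ⟨x, hx⟩
  · have h1 := dense_of_mem_residual (Filter.inter_mem hR (hRk 0))
    obtain ⟨y, hy1, hy2⟩ := h1.nonempty
    simp only [mem_ofPred_eq, mem_empty_iff_false, iff_false, not_not] at hy1 hy2
    exact hy1 hy2
  · -- a cylinder inside `u`
    obtain ⟨k, hk⟩ : ∃ k : ℕ, ∀ y : ℕ → Bool, (∀ n < k, y n = x n) → y ∈ u := by
      have h1 := (isOpen_pi_iff.1 huo) x hx
      obtain ⟨I, v, hv, hvu⟩ := h1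
      refine ⟨I.sup id + 1, fun y hy => hvu ?_⟩
      intro n hn
      have : n < I.sup id + 1 := Nat.lt_succ_of_le (Finset.le_sup (f := id) hn)
      rw [hy n this]
      exact (hv n hn).2
    have hopen : IsOpen {y : ℕ → Bool | ∀ n < k, y n = x n} := by
      have : {y : ℕ → Bool | ∀ n < k, y n = x n} = ⋂ n ∈ Finset.range k, {y | y n = x n} := by
        ext y; simp
      rw [this]
      refine isOpen_biInter_finset (fun n _ => ?_)
      exact IsOpen.preimage (continuous_apply (A := fun _ : ℕ => Bool) n) (isOpen_discrete {x n})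
    have hdense := dense_of_mem_residual (Filter.inter_mem hR (hRk k))
    obtain ⟨y, hyc, hy1, hy2⟩ := hdense.inter_open_nonempty _ hopen ⟨x, fun _ _ => rfl⟩
    simp only [mem_ofPred_eq] at hy1 hy2
    have h1 : y ∈ q := hy1.2 (hk y hyc)
    have h2 : y ∉ q := by
      apply hy2.2
      apply hk
      intro n hn
      have : flipFrom k y n = y n := by simp [flipFrom, hn]
      rw [this]
      exact hyc n hn
    exact h2 h1

end Pool.Agent.MP_bc74b8_gt
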