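import Mathlib

set_option autoImplicit false

namespace Pool.Agent.MP_bc74b8_gt

open Set Topology TopologicalSpace Cardinal

/-- the Cantor space -/
abbrev Ca : Type := ℕ → Bool

/-- atoms: side, tag, value -/
abbrev Atom : Type := Bool × Ca × Ca

/-- the side of an atom -/
abbrev sd (m : Atom) : Bool := m.1
/-- the tag of an atom -/
abbrev tg (m : Atom) : Ca := m.2.1
/-- the value of an atom -/
abbrev vl (m : Atom) : Ca := m.2.2

/-- indices of members of the sequence containing `E` -/
def trace (U : ℕ → Set Atom) (E : Set Atom) : Set ℕ := {n | E ⊆ U n}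

lemma trace_union (U : ℕ → Set Atom) (E F : Set Atom) :
    trace U (E ∪ F) = trace U E ∩ trace U F := by
  ext n; simp [trace]

lemma trace_anti (U : ℕ → Set Atom) {E F : Set Atom} (h : E ⊆ F) : trace U F ⊆ trace U E :=
  fun _ hn => h.trans hn

/-- legal configurations -/
def Legal (BB : Set (Set ℕ)) (D : Set Atom) : Prop :=
  ∀ s ∈ D, ∀ t ∈ D, tg s = tg t → sd s ≠ sd t → {n | vl s n ≠ vl t n} ∈ BB

lemma Legal.mono {BB : Set (Set ℕ)} {D E : Set Atom} (h : Legal BB D) (hE : E ⊆ D) :
    Legal BB E := fun s hs t ht => h s (hE hs) t (hE ht)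

lemma Legal.union {BB : Set (Set ℕ)} {D E : Set Atom} (h : Legal BB D) (h' : Legal BB E)
    (hd : ∀ s ∈ D, ∀ t ∈ E, tg s ≠ tg t) : Legal BB (D ∪ E) := by
  rintro s (hs | hs) t (ht | ht) h1 h2
  · exact h s hs t ht h1 h2
  · exact absurd h1 (hd s hs t ht)
  · exact absurd h1.symm (hd t ht s hs)
  · exact h' s hs t ht h1 h2

/-- bad triples -/
structure Bad (BB : Set (Set ℕ)) (U : ℕ → Set Atom) (X : Set Atom) (Dec : Set Ca)
    (C D E : Finset Atom) : Prop where
  hC : ∀ c ∈ C, tg c ∉ Dec
  hD : ∀ d ∈ D, tg d ∉ Dec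
  hCD : ∀ c ∈ C, ∀ d ∈ D, tg c ≠ tg d
  legal : Legal BB (↑D : Set Atom)
  hE : (↑E : Set Atom) ⊆ X
  empty : trace U (↑C ∪ ↑D ∪ ↑E) = ∅

/-- A step: newly added atoms and newly forbidden tags. -/
abbrev Step : Type := Finset Atom × Finset Ca

/-- what a step has to achieve -/
structure Good (BB : Set (Set ℕ)) (U : ℕ → Set Atom) (b : Set ℕ) (X : Set Atom) (Dec : Set Ca)
    (s : Step) : Prop where
  h1 : ∀ m ∈ s.1, tg m ∉ Dec ∧ tg m ∉ s.2
  h2 : ∀ z ∈ s.2, z ∉ Dec
  legal : Legal BB (↑s.1 : Set Atom)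
  special : b ∈ BB → ∃ m ∈ s.1, ∃ m' ∈ s.1, tg m = tg m' ∧ sd m ≠ sd m' ∧
    {n | vl m n ≠ vl m' n} = b
  main : (∀ C D E, ¬ Bad BB U X Dec C D E) ∨
    (∃ E : Finset Atom, (↑E : Set Atom) ⊆ X ∧ trace U (↑s.1 ∪ ↑E) = ∅) ∨
    (∃ C D E, Bad BB U X Dec C D E ∧ 2 ≤ C.card ∧
      (∀ C' D' E', Bad BB U X Dec C' D' E' → C.card ≤ C'.card) ∧
      (∀ c ∈ C, tg c ∈ s.2) ∧ D ⊆ s.1)

lemma exists_special (BB : Set (Set ℕ)) (b : Set ℕ) (Dec : Set Ca)
    (hfresh : ∀ F : Finset Ca, ∃ z, z ∉ Dec ∧ z ∉ F) (F : Finset Ca) :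
    ∃ N : Finset Atom, (∀ m ∈ N, tg m ∉ Dec ∧ tg m ∉ F) ∧ Legal BB (↑N : Set Atom) ∧
      (b ∈ BB → ∃ m ∈ N, ∃ m' ∈ N, tg m = tg m' ∧ sd m ≠ sd m' ∧
        {n | vl m n ≠ vl m' n} = b) := by
  classical
  by_cases hb : b ∈ BB
  · obtain ⟨z, hz, hzF⟩ := hfresh F
    let m : Atom := (false, z, fun _ => false)
    let m' : Atom := (true, z, fun n => decide (n ∈ b))
    have hmm : {n | vl m n ≠ vl m' n} = b := by
      ext n
      simp [m, m', vl]
    have hmm' : {n | vl m' n ≠ vl m n} = b := by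
      ext n
      simp [m, m', vl]
    refine ⟨{m, m'}, ?_, ?_, fun _ => ⟨m, by simp, m', by simp, rfl, by simp [m, m'], hmm⟩⟩
    · intro k hk
      simp only [Finset.mem_insert, Finset.mem_singleton] at hk
      rcases hk with rfl | rfl
      · exact ⟨hz, hzF⟩
      · exact ⟨hz, hzF⟩
    · intro s hs t ht h1 h2
      simp only [Finset.coe_insert, Finset.coe_singleton, mem_insert_iff, mem_singleton_iff]
        at hs ht
      rcases hs with rfl | rfl <;> rcases ht with rfl | rfl
      · exact absurd rfl h2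
      · rw [hmm]; exact hb
      · rw [hmm']; exact hb
      · exact absurd rfl h2
  · exact ⟨∅, by simp, by intro s hs; simp at hs, fun h => absurd h hb⟩

theorem exists_good (BB : Set (Set ℕ)) (U : ℕ → Set Atom) (b : Set ℕ) (X : Set Atom)
    (Dec : Set Ca) (hfresh : ∀ F : Finset Ca, ∃ z, z ∉ Dec ∧ z ∉ F) :
    ∃ s : Step, Good BB U b X Dec s := by
  classical
  by_cases hbad : ∃ C D E, Bad BB U X Dec C D E
  · -- minimal bad triple
    have hex : ∃ r : ℕ, ∃ C D E, Bad BB U X Dec C D E ∧ C.card = r := by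
      obtain ⟨C, D, E, h⟩ := hbad
      exact ⟨C.card, C, D, E, h, rfl⟩
    obtain ⟨C, D, E, hB, hr⟩ := Nat.find_spec hex
    have hmin : ∀ C' D' E', Bad BB U X Dec C' D' E' → C.card ≤ C'.card := by
      intro C' D' E' h
      rw [hr]
      exact Nat.find_min' hex ⟨C', D', E', h, rfl⟩
    by_cases h2 : 2 ≤ C.card
    · obtain ⟨N, hN, hNl, hNs⟩ := exists_special BB b Dec hfresh (D.image tg ∪ C.image tg)
      refine ⟨(D ∪ N, C.image tg), ?_, ?_, ?_, ?_, Or.inr (Or.inr ⟨C, D, E, hB, h2, hmin, ?_, ?_⟩)⟩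
      · intro m hm
        rcases Finset.mem_union.1 hm with hm | hm
        · refine ⟨hB.hD m hm, ?_⟩
          intro hc
          obtain ⟨c, hc, hcm⟩ := Finset.mem_image.1 hc
          exact hB.hCD c hc m hm hcm
        · refine ⟨(hN m hm).1, fun hc => (hN m hm).2 (Finset.mem_union_right _ hc)⟩
      · intro z hz
        obtain ⟨c, hc, rfl⟩ := Finset.mem_image.1 hz
        exact hB.hC c hc
      · simp only [Finset.coe_union]
        refine hB.legal.union hNl ?_
        intro s hs t ht hst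
        apply (hN t ht).2
        apply Finset.mem_union_left
        rw [← hst]
        exact Finset.mem_image_of_mem _ hs
      · intro hb
        obtain ⟨m, hm, m', hm', h⟩ := hNs hb
        exact ⟨m, Finset.mem_union_right _ hm, m', Finset.mem_union_right _ hm', h⟩
      · intro c hc
        exact Finset.mem_image_of_mem _ hc
      · exact Finset.subset_union_left
    · have hC1 : C.card ≤ 1 := by omega
      obtain ⟨N, hN, hNl, hNs⟩ := exists_special BB b Dec hfresh ((C ∪ D).image tg)
      refine ⟨(C ∪ D ∪ N, ∅), ?_, ?_, ?_, ?_, Or.inr (Or.inl ⟨E, hB.hE, ?_⟩)⟩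
      · intro m hm
        refine ⟨?_, by simp⟩
        rcases Finset.mem_union.1 hm with hm | hm
        · rcases Finset.mem_union.1 hm with hm | hm
          · exact hB.hC m hm
          · exact hB.hD m hm
        · exact (hN m hm).1
      · simp
      · simp only [Finset.coe_union]
        refine (Legal.union ?_ hB.legal hB.hCD).union hNl ?_
        · intro s hs t ht _ h2
          exact absurd (congrArg sd (Finset.card_le_one.1 hC1 s hs t ht)) h2
        · intro s hs t ht hst
          apply (hN t ht).2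
          rw [← hst]
          exact Finset.mem_image_of_mem _ (by simpa using hs)
      · intro hb
        obtain ⟨m, hm, m', hm', h⟩ := hNs hb
        exact ⟨m, Finset.mem_union_right _ hm, m', Finset.mem_union_right _ hm', h⟩
      · apply Set.subset_empty_iff.1
        rw [← hB.empty]
        apply trace_anti
        intro m hm
        rcases hm with (hm | hm) | hm
        · exact Or.inl (by simp only [Finset.coe_union]; exact Or.inl (Or.inl hm))
        · exact Or.inl (by simp only [Finset.coe_union]; exact Or.inl (Or.inr hm))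
        · exact Or.inr hm
  · push Not at hbad
    obtain ⟨N, hN, hNl, hNs⟩ := exists_special BB b Dec hfresh ∅
    exact ⟨(N, ∅), fun m hm => ⟨(hN m hm).1, by simp⟩, by simp, hNl, hNs, Or.inl hbad⟩

/-- the index set of the recursion -/
abbrev Idx : Type := (Cardinal.continuum.{0}).ord.ToType

/-- atoms added before stage `i` -/
def Xs (f : Idx → Step) (i : Idx) : Set Atom := {m | ∃ j < i, m ∈ (f j).1}

/-- tags decided before stage `i` -/
def Decs (f : Idx → Step) (i : Idx) : Set Ca :=
  {z | ∃ j < i, (∃ m ∈ (f j).1, tg m = z) ∨ z ∈ (f j).2}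

lemma mk_Iio_Idx (i : Idx) : #(Set.Iio i) < Cardinal.continuum.{0} := by
  simpa using Cardinal.mk_Iio_lt i

lemma mk_decs (f : Idx → Step) (i : Idx) : #(Decs f i) < Cardinal.continuum.{0} := by
  have h1 : Decs f i = ⋃ j : Set.Iio i, ((fun m => tg m) '' (↑(f j).1 : Set Atom) ∪ ↑(f j).2) := by
    ext z
    simp only [Decs, mem_ofPred_eq, mem_iUnion, mem_union, mem_image, Finset.mem_coe,
      Subtype.exists, mem_Iio, exists_prop]
  rw [h1]
  refine lt_of_le_of_lt (Cardinal.mk_iUnion_le _) ?_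
  refine Cardinal.mul_lt_of_lt Cardinal.aleph0_le_continuum (mk_Iio_Idx i) ?_
  refine lt_of_le_of_lt (ciSup_le' ?_) Cardinal.aleph0_lt_continuum
  intro j
  apply le_of_lt
  rw [Cardinal.lt_aleph0_iff_set_finite]
  exact ((Finset.finite_toSet _).image _).union (Finset.finite_toSet _)

lemma fresh (f : Idx → Step) (i : Idx) (F : Finset Ca) : ∃ z, z ∉ Decs f i ∧ z ∉ F := by
  by_contra h
  push Not at h
  have h1 : (univ : Set Ca) ⊆ Decs f i ∪ ↑F := by
    intro z _
    by_cases hz : z ∈ Decs f i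
    · exact Or.inl hz
    · exact Or.inr (h z hz)
  have h2 := Cardinal.mk_le_mk_of_subset h1
  have h3 : #(univ : Set Ca) = Cardinal.continuum.{0} := by simp
  rw [h3] at h2
  have h4 : #(↥(Decs f i ∪ ↑F) : Type) < Cardinal.continuum.{0} := by
    refine lt_of_le_of_lt (Cardinal.mk_union_le _ _) ?_
    refine Cardinal.add_lt_of_lt Cardinal.aleph0_le_continuum (mk_decs f i) ?_
    refine lt_of_lt_of_le ?_ Cardinal.aleph0_le_continuum
    rw [Cardinal.lt_aleph0_iff_set_finite]
    exact Finset.finite_toSet _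
  exact absurd h4 (not_lt.2 h2)

theorem exists_recursion (BB : Set (Set ℕ)) (U : Idx → ℕ → Set Atom) (b : Idx → Set ℕ) :
    ∃ f : Idx → Step, ∀ i, Good BB (U i) (b i) (Xs f i) (Decs f i) (f i) := by
  classical
  have hex : ∀ (i : Idx) (f : Idx → Step), ∃ s, Good BB (U i) (b i) (Xs f i) (Decs f i) s :=
    fun i f => exists_good BB (U i) (b i) _ _ (fresh f i)
  choose st hst using hex
  let ext : (i : Idx) → ((j : Idx) → j < i → Step) → Idx → Step :=
    fun i g j => if h : j < i then g j h else (∅, ∅)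
  let wf : WellFounded (fun a b : Idx => a < b) := wellFounded_lt
  let f : Idx → Step := wf.fix (fun i g => st i (ext i g))
  have hf : ∀ i, f i = st i (ext i (fun j _ => f j)) := fun i =>
    wf.fix_eq (fun i g => st i (ext i g)) i
  refine ⟨f, fun i => ?_⟩
  have hX : Xs (ext i (fun j _ => f j)) i = Xs f i := by
    ext m
    simp only [Xs, mem_ofPred_eq]
    refine exists_congr (fun j => and_congr_right (fun hj => ?_))
    simp only [ext, hj, dif_pos]
  have hDec : Decs (ext i (fun j _ => f j)) i = Decs f i := by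
    ext m
    simp only [Decs, mem_ofPred_eq]
    refine exists_congr (fun j => and_congr_right (fun hj => ?_))
    simp only [ext, hj, dif_pos]
  have := hst i (ext i (fun j _ => f j))
  rw [hX, hDec, ← hf i] at this
  exact this

end Pool.Agent.MP_bc74b8_gt
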