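import Mathlib

set_option autoImplicit false

namespace Pool.Agent.MP_bc74b8_gt

open Set Topology TopologicalSpace

section Scheme

variable {α T ι : Type*} [TopologicalSpace α] [TopologicalSpace T]
  (z : ι → α → T)

/-- `K` is thin if a countable set of tags meets the tag set of every element of `K` -/
def Thin (K : Set α) : Prop := ∃ W : Set T, W.Countable ∧ ∀ x ∈ K, ∃ i, z i x ∈ W

variable {z}

omit [TopologicalSpace α] [TopologicalSpace T] in
lemma Thin.mono {K L : Set α} (h : Thin z L) (hKL : K ⊆ L) : Thin z K := by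
  obtain ⟨W, hW, h⟩ := h
  exact ⟨W, hW, fun x hx => h x (hKL hx)⟩

omit [TopologicalSpace α] [TopologicalSpace T] in
lemma Thin.sUnion {C : Set (Set α)} (hC : C.Countable) (h : ∀ K ∈ C, Thin z K) :
    Thin z (⋃₀ C) := by
  choose! W hW h using h
  refine ⟨⋃ K ∈ C, W K, hC.biUnion hW, ?_⟩
  rintro x ⟨K, hK, hx⟩
  obtain ⟨i, hi⟩ := h K hK x hx
  exact ⟨i, mem_biUnion hK hi⟩

omit [TopologicalSpace α] [TopologicalSpace T] in
lemma Thin.union {K L : Set α} (hK : Thin z K) (hL : Thin z L) : Thin z (K ∪ L) := by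
  rw [← sUnion_pair]
  refine Thin.sUnion (by simp) ?_
  rintro _ (rfl | rfl)
  · exact hK
  · exact hL

omit [TopologicalSpace T] in
lemma thin_light [SecondCountableTopology α] (K : Set α) :
    Thin z {x ∈ K | ∃ O, IsOpen O ∧ x ∈ O ∧ Thin z (K ∩ O)} := by
  have hb := isBasis_countableBasis α
  have : {x ∈ K | ∃ O, IsOpen O ∧ x ∈ O ∧ Thin z (K ∩ O)} ⊆
      ⋃₀ ((fun B => K ∩ B) '' {B ∈ countableBasis α | Thin z (K ∩ B)}) := by
    rintro x ⟨hxK, O, hO, hxO, hT⟩
    obtain ⟨B, hB, hxB, hBO⟩ := hb.exists_subset_of_mem_open hxO hO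
    exact ⟨K ∩ B, ⟨B, ⟨hB, hT.mono (inter_subset_inter_right _ hBO)⟩, rfl⟩, hxK, hxB⟩
  refine Thin.mono (Thin.sUnion ?_ ?_) this
  · exact ((countable_countableBasis α).mono (fun B hB => hB.1)).image _
  · rintro _ ⟨B, hB, rfl⟩
    exact hB.2

lemma splitting [SecondCountableTopology α] [CompactSpace α] [T2Space α] [T2Space T] [Finite ι]
    (hz : ∀ i, Continuous (z i)) {K : Set α} (hK : IsClosed K) (hnt : ¬ Thin z K) :
    ∃ K0 K1 : Set α, (IsClosed K0 ∧ ¬ Thin z K0 ∧ K0 ⊆ K) ∧ (IsClosed K1 ∧ ¬ Thin z K1 ∧ K1 ⊆ K) ∧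
      ∀ x ∈ K0, ∀ y ∈ K1, ∀ i j, z i x ≠ z j y := by
  set P : Set α := {x ∈ K | ∀ O, IsOpen O → x ∈ O → ¬ Thin z (K ∩ O)} with hP
  have hKP : K = P ∪ {x ∈ K | ∃ O, IsOpen O ∧ x ∈ O ∧ Thin z (K ∩ O)} := by
    ext x
    constructor
    · intro hx
      by_cases h : ∃ O, IsOpen O ∧ x ∈ O ∧ Thin z (K ∩ O)
      · exact Or.inr ⟨hx, h⟩
      · left
        push Not at h
        exact ⟨hx, fun O hO hxO => h O hO hxO⟩
    · rintro (hx | hx)
      · exact hx.1
      · exact hx.1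
  have hPnt : ¬ Thin z P := by
    intro h
    apply hnt
    rw [hKP]
    exact h.union (thin_light K)
  -- first point
  have hPne : P.Nonempty := by
    by_contra h
    rw [not_nonempty_iff_eq_empty] at h
    exact hPnt ⟨∅, countable_empty, fun x hx => by rw [h] at hx; exact absurd hx (notMem_empty x)⟩
  obtain ⟨c, hc⟩ := hPne
  -- second point
  obtain ⟨c', hc', hcc'⟩ : ∃ c' ∈ P, ∀ i j, z i c' ≠ z j c := by
    by_contra h
    push Not at h
    refine hPnt ⟨range (fun j => z j c), (Set.finite_range _).countable, ?_⟩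
    intro x hx
    obtain ⟨i, j, hij⟩ := h x hx
    exact ⟨i, j, hij.symm⟩
  -- separation
  have hsep : ∀ i j, ∃ U V : Set α, IsOpen U ∧ IsOpen V ∧ c ∈ U ∧ c' ∈ V ∧
      ∀ x ∈ U, ∀ y ∈ V, z i x ≠ z j y := by
    intro i j
    obtain ⟨u, v, hu, hv, hcu, hcv, huv⟩ := t2_separation (hcc' j i).symm
    refine ⟨z i ⁻¹' u, z j ⁻¹' v, hu.preimage (hz i), hv.preimage (hz j), hcu, hcv, ?_⟩
    intro x hx y hy hxy
    exact Set.disjoint_left.1 huv hx (by rw [hxy]; exact hy)
  choose U V hU hV hcU hcV hUV using hsep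
  have hU' : IsOpen (⋂ i, ⋂ j, U i j) := isOpen_iInter_of_finite (fun i =>
    isOpen_iInter_of_finite (fun j => hU i j))
  have hV' : IsOpen (⋂ i, ⋂ j, V i j) := isOpen_iInter_of_finite (fun i =>
    isOpen_iInter_of_finite (fun j => hV i j))
  have hcU' : c ∈ ⋂ i, ⋂ j, U i j := by simpa using hcU
  have hcV' : c' ∈ ⋂ i, ⋂ j, V i j := by simpa using hcV
  obtain ⟨N, hN, hNc, hNU⟩ := exists_mem_nhds_isClosed_subset (hU'.mem_nhds hcU')
  obtain ⟨N', hN', hNc', hNU'⟩ := exists_mem_nhds_isClosed_subset (hV'.mem_nhds hcV')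
  refine ⟨K ∩ N, K ∩ N', ⟨hK.inter hNc, ?_, inter_subset_left⟩,
    ⟨hK.inter hNc', ?_, inter_subset_left⟩, ?_⟩
  · intro h
    refine hc.2 (interior N) isOpen_interior (mem_interior_iff_mem_nhds.2 hN) (h.mono ?_)
    exact inter_subset_inter_right _ interior_subset
  · intro h
    refine hc'.2 (interior N') isOpen_interior (mem_interior_iff_mem_nhds.2 hN') (h.mono ?_)
    exact inter_subset_inter_right _ interior_subset
  · rintro x ⟨-, hx⟩ y ⟨-, hy⟩ i j
    have hx' := hNU hx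
    have hy' := hNU' hy
    simp only [mem_iInter] at hx' hy'
    exact hUV i j x (hx' i j) y (hy' i j)

theorem exists_scheme [SecondCountableTopology α] [CompactSpace α] [T2Space α] [T2Space T]
    [Finite ι] (hz : ∀ i, Continuous (z i)) {K : Set α} (hK : IsClosed K) (hnt : ¬ Thin z K) :
    ∃ φ : (ℕ → Bool) → α, (∀ x, φ x ∈ K) ∧ ∀ x y, x ≠ y → ∀ i j, z i (φ x) ≠ z j (φ y) := by
  classical
  let Q := {L : Set α // IsClosed L ∧ ¬ Thin z L}
  have hstep : ∀ L : Q, ∃ p : Q × Q, p.1.1 ⊆ L.1 ∧ p.2.1 ⊆ L.1 ∧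
      ∀ x ∈ p.1.1, ∀ y ∈ p.2.1, ∀ i j, z i x ≠ z j y := by
    rintro ⟨L, hL, hL'⟩
    obtain ⟨K0, K1, h0, h1, h⟩ := splitting hz hL hL'
    exact ⟨(⟨K0, h0.1, h0.2.1⟩, ⟨K1, h1.1, h1.2.1⟩), h0.2.2, h1.2.2, h⟩
  choose p hp0 hp1 hp using hstep
  let D : List Bool → Q := fun l => l.rec ⟨K, hK, hnt⟩
    (fun b _ L => if b then (p L).2 else (p L).1)
  have hD0 : D [] = ⟨K, hK, hnt⟩ := rfl
  have hDs : ∀ b l, D (b :: l) = if b then (p (D l)).2 else (p (D l)).1 := fun b l => rfl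
  have hsub : ∀ b l, (D (b :: l)).1 ⊆ (D l).1 := by
    intro b l
    rw [hDs]
    cases b
    · exact hp0 _
    · exact hp1 _
  have hne : ∀ L : Q, L.1.Nonempty := by
    rintro ⟨L, hL, hL'⟩
    by_contra h
    rw [not_nonempty_iff_eq_empty] at h
    exact hL' ⟨∅, countable_empty, fun x hx => by
      have hx' : x ∈ (∅ : Set α) := h ▸ hx
      exact absurd hx' (notMem_empty x)⟩
  have hφ : ∀ x : ℕ → Bool, (⋂ n, (D (PiNat.res x n)).1).Nonempty := by
    intro x
    refine IsCompact.nonempty_iInter_of_sequence_nonempty_isCompact_isClosed _ ?_ ?_ ?_ ?_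
    · intro n
      rw [PiNat.res_succ]
      exact hsub _ _
    · intro n; exact hne _
    · exact (D (PiNat.res x 0)).2.1.isCompact
    · intro n; exact (D (PiNat.res x n)).2.1
  choose φ hφ using hφ
  have hφn : ∀ x n, φ x ∈ (D (PiNat.res x n)).1 := fun x n => mem_iInter.1 (hφ x) n
  refine ⟨φ, fun x => hφn x 0, ?_⟩
  intro x y hxy i j
  -- first difference
  have hex : ∃ n, x n ≠ y n := by
    by_contra h
    push Not at h
    exact hxy (funext h)
  let n := Nat.find hex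
  have hn : x n ≠ y n := Nat.find_spec hex
  have hlt : ∀ m < n, x m = y m := by
    intro m hm
    have := Nat.find_min hex hm
    simpa using this
  have hres : PiNat.res x n = PiNat.res y n := PiNat.res_eq_res.2 (fun {m} hm => hlt m hm)
  have h1 := hφn x (n + 1)
  have h2 := hφn y (n + 1)
  rw [PiNat.res_succ, hDs] at h1 h2
  rw [← hres] at h2
  cases hx : x n
  · have hy : y n = true := by
      cases hy : y n
      · exact absurd (hx.trans hy.symm) hn
      · rfl
    rw [hx] at h1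
    rw [hy] at h2
    exact hp _ _ h1 _ h2 i j
  · have hy : y n = false := by
      cases hy : y n
      · rfl
      · exact absurd (hx.trans hy.symm) hn
    rw [hx] at h1
    rw [hy] at h2
    exact (hp _ _ h2 _ h1 j i).symm

/-- A closed set of tuples whose tag sets are all met by fewer than continuum many tags is
thin. -/
theorem thin_of_hit {α T ι : Type} [TopologicalSpace α] [TopologicalSpace T] {z : ι → α → T}
    [SecondCountableTopology α] [CompactSpace α] [T2Space α] [T2Space T]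
    [Finite ι] (hz : ∀ i, Continuous (z i)) {K : Set α} (hK : IsClosed K) (W : Set T)
    (hW : Cardinal.mk W < Cardinal.continuum) (hit : ∀ x ∈ K, ∃ i, z i x ∈ W) : Thin z K := by
  by_contra hnt
  obtain ⟨φ, hφK, hφ⟩ := exists_scheme hz hK hnt
  have : ∀ x, ∃ w : W, ∃ i, z i (φ x) = w := fun x => by
    obtain ⟨i, hi⟩ := hit (φ x) (hφK x)
    exact ⟨⟨_, hi⟩, i, rfl⟩
  choose w i hw using this
  have hinj : Function.Injective w := by
    intro x y hxy
    by_contra hne
    apply hφ x y hne (i x) (i y)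
    rw [hw, hw, hxy]
  have h1 := Cardinal.mk_le_of_injective hinj
  have h2 : Cardinal.mk (ℕ → Bool) = Cardinal.continuum := by simp
  rw [h2] at h1
  exact absurd hW (not_lt.2 h1)

end Scheme

end Pool.Agent.MP_bc74b8_gt
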