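import Mathlib
import Pool.Agent.Lib.MP_bc74b8_gt.NotAnalytic
import Pool.Agent.Lib.MP_bc74b8_gt.Scheme
import Pool.Agent.Lib.MP_bc74b8_gt.Recursion

set_option autoImplicit false

namespace Pool.Agent.MP_bc74b8_gt

open Set Topology TopologicalSpace Cardinal MeasureTheory

/-- the final set of atoms -/
def Sfin (f : Idx → Step) : Set Atom := {m | ∃ i, m ∈ (f i).1}

section

variable {BB : Set (Set ℕ)} {U : Idx → ℕ → Set Atom} {b : Idx → Set ℕ} {f : Idx → Step}

lemma tag_mem_decs {m : Atom} {i j : Idx} (hm : m ∈ (f j).1) (hij : j < i) :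
    tg m ∈ Decs f i := ⟨j, hij, Or.inl ⟨m, hm, rfl⟩⟩

lemma forb_mem_decs {z : Ca} {i j : Idx} (hm : z ∈ (f j).2) (hij : j < i) :
    z ∈ Decs f i := ⟨j, hij, Or.inr hm⟩

lemma same_stage (hf : ∀ i, Good BB (U i) (b i) (Xs f i) (Decs f i) (f i))
    {s t : Atom} {i j : Idx} (hs : s ∈ (f i).1) (ht : t ∈ (f j).1) (hst : tg s = tg t) :
    i = j := by
  rcases lt_trichotomy i j with h | h | h
  · exfalso
    apply ((hf j).h1 t ht).1
    rw [← hst]
    exact tag_mem_decs hs h
  · exact h
  · exfalso
    apply ((hf i).h1 s hs).1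
    rw [hst]
    exact tag_mem_decs ht h

lemma legal_fin (hf : ∀ i, Good BB (U i) (b i) (Xs f i) (Decs f i) (f i)) :
    Legal BB (Sfin f) := by
  rintro s ⟨i, hs⟩ t ⟨j, ht⟩ hst hsd
  obtain rfl := same_stage hf hs ht hst
  exact (hf i).legal s hs t ht hst hsd

lemma fibre_finite (hf : ∀ i, Good BB (U i) (b i) (Xs f i) (Decs f i) (f i)) (z : Ca) :
    {m ∈ Sfin f | tg m = z}.Finite := by
  by_cases h : ∃ m ∈ Sfin f, tg m = z
  · obtain ⟨m, ⟨i, hm⟩, rfl⟩ := h
    refine (Finset.finite_toSet (f i).1).subset ?_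
    rintro t ⟨⟨j, ht⟩, htm⟩
    obtain rfl := same_stage hf ht hm htm
    exact ht
  · push Not at h
    convert Set.finite_empty
    ext m
    simp only [mem_ofPred_eq, mem_empty_iff_false, iff_false, not_and]
    exact h m

lemma not_forb (hf : ∀ i, Good BB (U i) (b i) (Xs f i) (Decs f i) (f i)) {m : Atom}
    (hm : m ∈ Sfin f) (i : Idx) : tg m ∉ (f i).2 := by
  obtain ⟨j, hj⟩ := hm
  intro h
  rcases lt_trichotomy i j with hij | hij | hij
  · exact ((hf j).h1 m hj).1 (forb_mem_decs h hij)
  · subst hij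
    exact ((hf i).h1 m hj).2 h
  · exact (hf i).h2 _ h (tag_mem_decs hj hij)

lemma late (hf : ∀ i, Good BB (U i) (b i) (Xs f i) (Decs f i) (f i)) {m : Atom}
    (hm : m ∈ Sfin f) {i : Idx} (hi : m ∉ Xs f i) : tg m ∉ Decs f i := by
  obtain ⟨j, hj⟩ := hm
  have hij : i ≤ j := by
    by_contra h
    exact hi ⟨j, not_le.1 h, hj⟩
  rintro ⟨k, hk, h | h⟩
  · obtain ⟨m', hm', h⟩ := h
    have := same_stage hf hm' hj h
    subst this
    exact absurd hk (not_lt.2 hij)
  · exact not_forb hf ⟨j, hj⟩ k h

lemma xs_subset (i : Idx) : Xs f i ⊆ Sfin f := by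
  rintro m ⟨j, -, hm⟩
  exact ⟨j, hm⟩

/-- In the relevant situation no bad triple existed at any stage devoted to the sequence. -/
lemma no_bad (hf : ∀ i, Good BB (U i) (b i) (Xs f i) (Decs f i) (f i)) (i : Idx)
    (hcov : ∀ E : Finset Atom, (↑E : Set Atom) ⊆ Sfin f → (trace (U i) ↑E).Nonempty)
    (hns : ¬ ∃ A : Set ℕ, ∀ E : Finset Atom, (↑E : Set Atom) ⊆ Sfin f →
      (trace (U i) ↑E ∩ A).Nonempty ∧ (trace (U i) ↑E \ A).Nonempty) :
    ∀ C D E, ¬ Bad BB (U i) (Xs f i) (Decs f i) C D E := by
  classical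
  rcases (hf i).main with h | ⟨E, hE, hemp⟩ | ⟨C, D, E, hB, h2, hmin, hCf, hDs⟩
  · exact h
  · exfalso
    have := hcov ((f i).1 ∪ E) (by
      rw [Finset.coe_union]
      exact union_subset (fun m hm => ⟨i, hm⟩) (hE.trans (xs_subset i)))
    rw [Finset.coe_union, hemp] at this
    exact not_nonempty_empty this
  · exfalso
    apply hns
    have hCne : C.Nonempty := Finset.card_pos.1 (by omega)
    obtain ⟨c, hc⟩ := hCne
    refine ⟨trace (U i) {c}, fun E' hE' => ?_⟩
    set L := E'.filter (fun m => m ∉ Xs f i) with hL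
    set R := E'.filter (fun m => m ∈ Xs f i) with hR
    have hLR : (↑E' : Set Atom) ⊆ ↑L ∪ ↑R := by
      intro m hm
      by_cases h : m ∈ Xs f i
      · exact Or.inr (by rw [hR]; simp; exact ⟨hm, h⟩)
      · exact Or.inl (by rw [hL]; simp; exact ⟨hm, h⟩)
    have hLS : ∀ m ∈ L, m ∈ Sfin f ∧ m ∉ Xs f i := by
      intro m hm
      rw [hL, Finset.mem_filter] at hm
      exact ⟨hE' hm.1, hm.2⟩
    have hRX : (↑R : Set Atom) ⊆ Xs f i := by
      intro m hm
      rw [hR, Finset.mem_coe, Finset.mem_filter] at hm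
      exact hm.2
    have hLleg : Legal BB (↑L : Set Atom) := (legal_fin hf).mono (fun m hm => (hLS m hm).1)
    have hLdec : ∀ m ∈ L, tg m ∉ Decs f i := fun m hm => late hf (hLS m hm).1 (hLS m hm).2
    have hLC : ∀ c ∈ C, ∀ m ∈ L, tg c ≠ tg m := by
      intro c hc m hm h
      exact not_forb hf (hLS m hm).1 i (h ▸ hCf c hc)
    constructor
    · by_contra hemp
      rw [not_nonempty_iff_eq_empty] at hemp
      have : Bad BB (U i) (Xs f i) (Decs f i) {c} L R := by
        refine ⟨?_, hLdec, ?_, hLleg, hRX, ?_⟩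
        · intro c' hc'
          rw [Finset.mem_singleton] at hc'
          rw [hc']; exact hB.hC c hc
        · intro c' hc'
          rw [Finset.mem_singleton] at hc'
          rw [hc']; exact hLC c hc
        · apply subset_empty_iff.1
          rw [← hemp, ← trace_union]
          apply trace_anti
          intro m hm
          rcases hm with hm | hm
          · rw [union_assoc]
            exact Or.inr (hLR hm)
          · left; left
            simpa using hm
      have := hmin _ _ _ this
      rw [Finset.card_singleton] at this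
      omega
    · by_contra hemp
      have : Bad BB (U i) (Xs f i) (Decs f i) (C.erase c) (D ∪ L) (E ∪ R) := by
        refine ⟨?_, ?_, ?_, ?_, ?_, ?_⟩
        · intro c' hc'
          exact hB.hC c' (Finset.mem_of_mem_erase hc')
        · intro d hd
          rcases Finset.mem_union.1 hd with hd | hd
          · exact hB.hD d hd
          · exact hLdec d hd
        · intro c' hc' d hd
          have hc'' := Finset.mem_of_mem_erase hc'
          rcases Finset.mem_union.1 hd with hd | hd
          · exact hB.hCD c' hc'' d hd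
          · exact hLC c' hc'' d hd
        · rw [Finset.coe_union]
          refine (legal_fin hf).mono (union_subset ?_ ?_)
          · intro m hm
            exact ⟨i, hDs hm⟩
          · intro m hm; exact (hLS m hm).1
        · rw [Finset.coe_union]
          exact union_subset hB.hE hRX
        · rw [eq_empty_iff_forall_notMem]
          intro n hn
          apply hemp
          refine ⟨n, ?_, ?_⟩
          · refine (trace_anti (U i) ?_) hn
            intro m hm
            rcases hLR hm with h | h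
            · left; right
              rw [Finset.coe_union]; exact Or.inr h
            · right
              rw [Finset.coe_union]; exact Or.inr h
          · intro hnc
            have : n ∈ trace (U i) (↑C ∪ ↑D ∪ ↑E) := by
              have h3 : n ∈ trace (U i) (↑(C.erase c) ∪ ↑(D ∪ L) ∪ ↑(E ∪ R) ∪ {c}) := by
                rw [trace_union]; exact ⟨hn, hnc⟩
              refine (trace_anti (U i) ?_) h3
              rintro m ((hm | hm) | hm)
              · by_cases hmc : m = c
                · exact Or.inr hmc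
                · left; left; left
                  exact Finset.mem_coe.2 (Finset.mem_erase.2 ⟨hmc, hm⟩)
              · left; left; right
                rw [Finset.coe_union]; exact Or.inl hm
              · left; right
                rw [Finset.coe_union]; exact Or.inl hm
            rw [hB.empty] at this
            exact this
      have := hmin _ _ _ this
      rw [Finset.card_erase_of_mem hc] at this
      omega

end

/-- The main combinatorial theorem about the recursion. -/
theorem core {BB : Set (Set ℕ)} {U : Idx → ℕ → Set Atom} {b : Idx → Set ℕ} {f : Idx → Step}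
    (hf : ∀ i, Good BB (U i) (b i) (Xs f i) (Decs f i) (f i))
    (V : ℕ → Set Atom) (hVo : ∀ n, IsOpen (V n))
    (hcof : ∀ i₀, ∃ i, i₀ < i ∧ U i = V)
    (hne : ∀ n, ¬ Sfin f ⊆ V n)
    (hcov : ∀ E : Finset Atom, (↑E : Set Atom) ⊆ Sfin f → (trace V ↑E).Nonempty) :
    ∃ A : Set ℕ, ∀ E : Finset Atom, (↑E : Set Atom) ⊆ Sfin f →
      (trace V ↑E ∩ A).Nonempty ∧ (trace V ↑E \ A).Nonempty := by
  classical
  by_contra hns
  -- small sets of tags
  have hstar : ∀ E : Finset Atom, (↑E : Set Atom) ⊆ Sfin f → ∃ T : Set Ca,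
      #T < Cardinal.continuum.{0} ∧ ∀ C : Finset Atom, (∀ c ∈ C, tg c ∉ T) →
        (trace V (↑E ∪ ↑C)).Nonempty := by
    intro E hE
    have hIne : Nonempty Idx := by
      rw [← Cardinal.mk_ne_zero_iff]
      simp only [Cardinal.mk_toType, Cardinal.card_ord]
      exact Cardinal.continuum_ne_zero
    have h1 : ∃ i₀ : Idx, ∀ m ∈ E, ∃ j ≤ i₀, m ∈ (f j).1 := by
      have h2 : ∀ m : Atom, ∃ j : Idx, m ∈ E → m ∈ (f j).1 := by
        intro m
        by_cases hm : m ∈ E
        · obtain ⟨j, hj⟩ := hE hm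
          exact ⟨j, fun _ => hj⟩
        · exact ⟨Classical.arbitrary _, fun h => absurd h hm⟩
      choose j hj using h2
      obtain ⟨M, hM⟩ := (E.image j).exists_le
      exact ⟨M, fun m hm => ⟨j m, hM _ (Finset.mem_image_of_mem _ hm), hj m hm⟩⟩
    obtain ⟨i₀, hi₀⟩ := h1
    obtain ⟨i, hi, rfl⟩ := hcof i₀
    refine ⟨Decs f i, mk_decs f i, fun C hC => ?_⟩
    by_contra hemp
    rw [not_nonempty_iff_eq_empty] at hemp
    refine no_bad hf i hcov hns C ∅ E ⟨hC, by simp, by simp, ?_, ?_, ?_⟩
    · intro s hs; simp at hs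
    · intro m hm
      obtain ⟨j, hj, hmj⟩ := hi₀ m hm
      exact ⟨j, lt_of_le_of_lt hj hi, hmj⟩
    · rw [← hemp, Finset.coe_empty, union_empty, union_comm]
  -- countable witnesses
  have hK : ∀ (E : Finset Atom) (r : ℕ),
      IsClosed {x : Fin r → Atom | trace V (↑E ∪ range x) = ∅} := by
    intro E r
    have : {x : Fin r → Atom | trace V (↑E ∪ range x) = ∅} =
        (⋃ n ∈ trace V (↑E : Set Atom), ⋂ j : Fin r, {x : Fin r → Atom | x j ∈ V n})ᶜ := by
      ext x
      simp only [mem_ofPred_eq, mem_compl_iff, mem_iUnion, mem_iInter, not_exists,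
        eq_empty_iff_forall_notMem]
      refine forall_congr' (fun n => ?_)
      simp only [trace, mem_ofPred_eq, union_subset_iff, range_subset_iff, not_and]
    rw [this, isClosed_compl_iff]
    refine isOpen_biUnion (fun n _ => isOpen_iInter_of_finite (fun j => ?_))
    exact (hVo n).preimage (continuous_apply (A := fun _ : Fin r => Atom) j)
  have htgc : Continuous (fun m : Atom => tg m) := by
    unfold tg; fun_prop
  have hw : ∀ E : Finset Atom, (↑E : Set Atom) ⊆ Sfin f → ∃ W : Set Ca, W.Countable ∧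
      ∀ (r : ℕ) (x : Fin r → Atom), (∀ j, tg (x j) ∉ W) →
        (trace V (↑E ∪ range x)).Nonempty := by
    intro E hE
    obtain ⟨T, hT, hTC⟩ := hstar E hE
    have hthin : ∀ r : ℕ, Thin (fun (j : Fin r) (x : Fin r → Atom) => tg (x j))
        {x : Fin r → Atom | trace V (↑E ∪ range x) = ∅} := by
      intro r
      refine thin_of_hit (fun j => htgc.comp (continuous_apply (A := fun _ : Fin r => Atom) j))
        (hK E r) T hT ?_
      intro x hx
      by_contra hcon
      push Not at hcon
      have := hTC (Finset.univ.image x) (by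
        intro c hc
        obtain ⟨j, -, rfl⟩ := Finset.mem_image.1 hc
        exact hcon j)
      rw [Finset.coe_image, Finset.coe_univ, image_univ] at this
      have hx' : trace V (↑E ∪ range x) = ∅ := hx
      rw [hx'] at this
      exact not_nonempty_empty this
    choose W hWc hW using hthin
    refine ⟨⋃ r, W r, countable_iUnion hWc, ?_⟩
    intro r x hx
    by_contra hemp
    rw [not_nonempty_iff_eq_empty] at hemp
    obtain ⟨j, hj⟩ := hW r x hemp
    exact hx j (mem_iUnion.2 ⟨r, hj⟩)
  choose! W hWc hW using hw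
  -- closing off
  let Wn : ℕ → Set Ca := fun k => Nat.rec ∅ (fun _ Y =>
    Y ∪ ⋃ E ∈ {E : Finset Atom | (↑E : Set Atom) ⊆ Sfin f ∩ (fun m => tg m) ⁻¹' Y}, W E) k
  have hWn : ∀ k, Wn (k + 1) = Wn k ∪
    ⋃ E ∈ {E : Finset Atom | (↑E : Set Atom) ⊆ Sfin f ∩ (fun m => tg m) ⁻¹' (Wn k)}, W E :=
    fun k => rfl
  have hctbl : ∀ Y : Set Ca, Y.Countable → (Sfin f ∩ (fun m => tg m) ⁻¹' Y).Countable := by
    intro Y hY
    have : Sfin f ∩ (fun m => tg m) ⁻¹' Y ⊆ ⋃ z ∈ Y, {m ∈ Sfin f | tg m = z} := by
      rintro m ⟨hm, hmY⟩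
      exact mem_biUnion hmY ⟨hm, rfl⟩
    exact (hY.biUnion (fun z _ => (fibre_finite hf z).countable)).mono this
  have hfinc : ∀ Y : Set Atom, Y.Countable → {E : Finset Atom | (↑E : Set Atom) ⊆ Y}.Countable := by
    intro Y hY
    have h1 := Set.countable_ofPred_finite_subset hY
    have h2 : MapsTo (fun E : Finset Atom => (↑E : Set Atom)) {E : Finset Atom | (↑E : Set Atom) ⊆ Y}
        {t | t.Finite ∧ t ⊆ Y} := fun E hE => ⟨Finset.finite_toSet E, hE⟩
    exact h2.countable_of_injOn (Finset.coe_injective.injOn) h1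
  have hWnc : ∀ k, (Wn k).Countable := by
    intro k
    induction k with
    | zero => exact countable_empty
    | succ k ih =>
      rw [hWn]
      refine ih.union ?_
      refine (hfinc _ (hctbl _ ih)).biUnion (fun E hE => hWc E (hE.trans inter_subset_left))
  have hWnm : Monotone Wn := by
    refine monotone_nat_of_le_succ (fun k => ?_)
    rw [hWn]; exact subset_union_left
  set Y : Set Ca := ⋃ k, Wn k with hY
  have hYc : Y.Countable := countable_iUnion hWnc
  have hYclosed : ∀ E : Finset Atom, (↑E : Set Atom) ⊆ Sfin f ∩ (fun m => tg m) ⁻¹' Y →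
      W E ⊆ Y := by
    intro E hE
    have h1 : ∃ k, ∀ m ∈ E, tg m ∈ Wn k := by
      have h2 : ∀ m : Atom, ∃ k, m ∈ E → tg m ∈ Wn k := by
        intro m
        by_cases hm : m ∈ E
        · obtain ⟨k, hk⟩ := mem_iUnion.1 (hE hm).2
          exact ⟨k, fun _ => hk⟩
        · exact ⟨0, fun h => absurd h hm⟩
      choose k hk using h2
      refine ⟨E.sup k, fun m hm => hWnm (Finset.le_sup hm) (hk m hm)⟩
    obtain ⟨k, hk⟩ := h1
    refine Subset.trans ?_ (subset_iUnion Wn (k + 1))
    rw [hWn]
    refine Subset.trans ?_ subset_union_right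
    exact subset_biUnion_of_mem (u := W) (show E ∈ {E : Finset Atom | (↑E : Set Atom) ⊆ Sfin f ∩ (fun m => tg m) ⁻¹' (Wn k)} from
      fun m hm => ⟨(hE hm).1, hk m hm⟩)
  -- the filter
  let P : Finset Atom → (r : ℕ) → Set ((Fin r → Atom) × Ca) := fun E r =>
    {p | (∀ j, tg (p.1 j) ∉ Y) ∧ ∀ n ∈ trace V (↑E ∪ range p.1), p.2 n = true}
  let 𝒜 : Set Ca := {a | ∃ E : Finset Atom, (↑E : Set Atom) ⊆ Sfin f ∩ (fun m => tg m) ⁻¹' Y ∧
    ∃ r, ∃ x : Fin r → Atom, (x, a) ∈ P E r}
  have hA_an : AnalyticSet 𝒜 := by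
    have h1 : 𝒜 = ⋃ p : {E : Finset Atom | (↑E : Set Atom) ⊆ Sfin f ∩ (fun m => tg m) ⁻¹' Y} × ℕ,
        Prod.snd '' (P p.1 p.2) := by
      ext a
      simp only [𝒜, mem_ofPred_eq, mem_iUnion, mem_image, Prod.exists, exists_eq_right,
        Subtype.exists, exists_prop]
      constructor
      · rintro ⟨E, hE, r, x, hx⟩; exact ⟨E, hE, r, x, hx⟩
      · rintro ⟨E, hE, r, x, hx⟩; exact ⟨E, hE, r, x, hx⟩
    rw [h1]
    have : Countable {E : Finset Atom | (↑E : Set Atom) ⊆ Sfin f ∩ (fun m => tg m) ⁻¹' Y} :=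
      (hfinc _ (hctbl _ hYc)).to_subtype
    refine AnalyticSet.iUnion (fun p => ?_)
    refine AnalyticSet.image_of_continuous ?_ continuous_snd
    obtain ⟨E, r⟩ := p
    have hpol : PolishSpace ((Fin r → Atom) × Ca) := polish_of_instances _
    borelize ((Fin r → Atom) × Ca)
    apply MeasurableSet.analyticSet
    have h2 : P E r = (⋂ j : Fin r, (fun p : (Fin r → Atom) × Ca => tg (p.1 j)) ⁻¹' Yᶜ) ∩
        ⋂ n ∈ trace V (↑(E : Finset Atom) : Set Atom),
          ((⋂ j : Fin r, {p : (Fin r → Atom) × Ca | p.1 j ∈ V n}) ∩ {p | p.2 n = false})ᶜ := by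
      ext ⟨x, a⟩
      simp only [P, mem_ofPred_eq, mem_inter_iff, mem_iInter, mem_preimage, mem_compl_iff,
        not_and]
      refine and_congr_right (fun _ => forall_congr' (fun n => ?_))
      simp only [trace, mem_ofPred_eq, union_subset_iff, range_subset_iff, and_imp,
        Bool.not_eq_false]
    rw [h2]
    have hcj : ∀ j : Fin r, Continuous (fun p : (Fin r → Atom) × Ca => p.1 j) := fun j =>
      (continuous_apply (A := fun _ : Fin r => Atom) j).comp continuous_fst
    refine MeasurableSet.inter (MeasurableSet.iInter (fun j => ?_)) ?_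
    · borelize Ca
      exact ((htgc.comp (hcj j)).measurable) (hYc.measurableSet.compl)
    · refine MeasurableSet.biInter (to_countable _) (fun n _ => MeasurableSet.compl ?_)
      refine IsOpen.measurableSet ?_
      refine (isOpen_iInter_of_finite (fun j => (hVo n).preimage (hcj j))).inter ?_
      exact IsOpen.preimage ((continuous_apply (A := fun _ : ℕ => Bool) n).comp continuous_snd)
        (isOpen_discrete {false})
  -- traces of finite subsets of the final set
  have hA_q : ∀ E : Finset Atom, (↑E : Set Atom) ⊆ Sfin f → ∀ a : Ca,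
      (∀ n ∈ trace V (↑E : Set Atom), a n = true) → a ∈ 𝒜 := by
    intro E hE a ha
    let R := (E.filter (fun m => tg m ∉ Y))
    refine ⟨E.filter (fun m => tg m ∈ Y), ?_, R.card, fun j => (R.equivFin.symm j : Atom), ?_, ?_⟩
    · intro m hm
      rw [Finset.mem_coe, Finset.mem_filter] at hm
      exact ⟨hE hm.1, hm.2⟩
    · intro j
      have := (R.equivFin.symm j).2
      exact (Finset.mem_filter.1 this).2
    · intro n hn
      apply ha
      refine trace_anti V ?_ hn
      intro m hm
      by_cases hmY : tg m ∈ Y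
      · left
        rw [Finset.mem_coe, Finset.mem_filter]
        exact ⟨hm, hmY⟩
      · right
        have hmR : m ∈ R := Finset.mem_filter.2 ⟨hm, hmY⟩
        exact ⟨R.equivFin ⟨m, hmR⟩, by simp⟩
  -- properness
  have hA_ne : ∀ a ∈ 𝒜, ∃ n, a n = true := by
    rintro a ⟨E, hE, r, x, hx, hn⟩
    obtain ⟨n, hn'⟩ := hW E (hE.trans inter_subset_left) r x
      (fun j h => hx j (hYclosed E hE h))
    exact ⟨n, hn n hn'⟩
  -- intersections
  have hA_inter : ∀ a ∈ 𝒜, ∀ a' ∈ 𝒜, (fun n => a n && a' n) ∈ 𝒜 := by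
    rintro a ⟨E, hE, r, x, hx, hn⟩ a' ⟨E', hE', r', x', hx', hn'⟩
    refine ⟨E ∪ E', ?_, r + r', Fin.append x x', ?_, ?_⟩
    · rw [Finset.coe_union]; exact union_subset hE hE'
    · intro j
      refine Fin.addCases (fun j => ?_) (fun j => ?_) j
      · simpa using hx j
      · simpa using hx' j
    · intro n hnn
      have h1 : a n = true := by
        apply hn
        refine trace_anti V ?_ hnn
        rw [Finset.coe_union]
        rintro m (hm | ⟨j, rfl⟩)
        · exact Or.inl (Or.inl hm)
        · exact Or.inr ⟨Fin.castAdd r' j, by simp⟩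
      have h2 : a' n = true := by
        apply hn'
        refine trace_anti V ?_ hnn
        rw [Finset.coe_union]
        rintro m (hm | ⟨j, rfl⟩)
        · exact Or.inl (Or.inr hm)
        · exact Or.inr ⟨Fin.natAdd r j, by simp⟩
      simp [h1, h2]
  -- upper sets
  have hA_up : ∀ a ∈ 𝒜, ∀ a' : Ca, (∀ n, a n = true → a' n = true) → a' ∈ 𝒜 := by
    rintro a ⟨E, hE, r, x, hx, hn⟩ a' haa'
    exact ⟨E, hE, r, x, hx, fun n hn' => haa' n (hn n hn')⟩
  -- cofinite sets
  have hA_cof : ∀ k : ℕ, (fun n => decide (k ≤ n)) ∈ 𝒜 := by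
    intro k
    have : ∀ n, ∃ s ∈ Sfin f, s ∉ V n := fun n => Set.not_subset.1 (hne n)
    choose s hs hsV using this
    refine hA_q ((Finset.range k).image s) ?_ _ ?_
    · intro m hm
      obtain ⟨n, -, rfl⟩ := Finset.mem_image.1 (Finset.mem_coe.1 hm)
      exact hs n
    · intro n hn
      by_contra hkn
      have hkn' : n < k := by simpa using hkn
      exact hsV n (hn (Finset.mem_coe.2 (Finset.mem_image_of_mem _ (Finset.mem_range.2 hkn'))))
  refine not_analytic_of_ultra 𝒜 hA_an ?_
  intro k a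
  constructor
  · intro h1 h2
    obtain ⟨n, hn⟩ := hA_ne _ (hA_inter _ (hA_inter _ h1 _ h2) _ (hA_cof k))
    simp only [Bool.and_eq_true, decide_eq_true_eq] at hn
    obtain ⟨⟨h3, h4⟩, h5⟩ := hn
    simp only [flipFrom, not_lt.2 h5, if_false, h4] at h3
    exact absurd h3 (by simp)
  · intro ha
    -- the set `{n | a n}` does not split
    have h1 : ¬ ∀ E : Finset Atom, (↑E : Set Atom) ⊆ Sfin f →
        (trace V ↑E ∩ {n | a n = true}).Nonempty ∧ (trace V ↑E \ {n | a n = true}).Nonempty :=
      fun h => hns ⟨_, h⟩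
    push Not at h1
    obtain ⟨E, hE, hE'⟩ := h1
    have h2 : (trace V ↑E \ {n | a n = true}).Nonempty := by
      by_contra h3
      rw [not_nonempty_iff_eq_empty, sdiff_eq_empty] at h3
      exact ha (hA_q E hE a h3)
    have h3 : ¬ (trace V ↑E ∩ {n | a n = true}).Nonempty := by
      intro h4
      have := hE' h4
      rw [this] at h2
      exact not_nonempty_empty h2
    have h4 : (fun n => !a n) ∈ 𝒜 := by
      refine hA_q E hE _ ?_
      intro n hn
      by_contra h5
      apply h3
      refine ⟨n, hn, ?_⟩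
      simpa using h5
    refine hA_up _ (hA_inter _ h4 _ (hA_cof k)) _ ?_
    intro n hn
    simp only [Bool.and_eq_true, decide_eq_true_eq] at hn
    simp only [flipFrom, not_lt.2 hn.2, if_false]
    exact hn.1

end Pool.Agent.MP_bc74b8_gt
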