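import Mathlib
import Pool.Agent.Lib.MP_bc74b8_gt.Defs
import Pool.Agent.Lib.MP_bc74b8_gt.OmegaTau
import Pool.Agent.Lib.MP_bc74b8_gt.Core

set_option autoImplicit false

namespace Pool.Agent.MP_bc74b8_gt

open Set Topology TopologicalSpace Cardinal MeasureTheory

/-- enumeration of all sequences of open sets, each occurring cofinally -/
lemma exists_enumeration : ∃ (U : Idx → ℕ → Set Atom) (b : Idx → Set ℕ),
    (∀ V : ℕ → Set Atom, (∀ n, IsOpen (V n)) → ∀ i₀, ∃ i, i₀ < i ∧ U i = V) ∧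
    ∀ c : Set ℕ, ∃ i, b i = c := by
  classical
  obtain ⟨B, hBc, -, hB⟩ := exists_countable_basis Atom
  have hBne : B.Nonempty := by
    by_contra h
    rw [not_nonempty_iff_eq_empty] at h
    have := hB.sUnion_eq
    rw [h, sUnion_empty] at this
    exact (Set.empty_ne_univ) this
  obtain ⟨β, hβ⟩ := hBc.exists_eq_range hBne
  let dec : (ℕ → Set ℕ) → ℕ → Set Atom := fun c n => ⋃ k ∈ c n, β k
  have hdec : ∀ V : ℕ → Set Atom, (∀ n, IsOpen (V n)) → ∃ c, dec c = V := by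
    intro V hV
    refine ⟨fun n => {k | β k ⊆ V n}, ?_⟩
    funext n
    apply Subset.antisymm
    · exact iUnion₂_subset (fun k hk => hk)
    · intro x hx
      obtain ⟨u, hu, hxu, huV⟩ := hB.exists_subset_of_mem_open hx (hV n)
      rw [hβ] at hu
      obtain ⟨k, rfl⟩ := hu
      exact mem_biUnion (show k ∈ {k | β k ⊆ V n} from huV) hxu
  have hI : #Idx = Cardinal.continuum.{0} := by simp
  have hcard : #Idx = #((ℕ → Set ℕ) × Set ℕ × Idx) := by
    rw [Cardinal.mk_prod, Cardinal.mk_prod, hI]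
    simp
  obtain ⟨e⟩ := Cardinal.eq.1 hcard
  refine ⟨fun i => dec (e i).1, fun i => (e i).2.1, ?_, ?_⟩
  · intro V hV i₀
    obtain ⟨c, rfl⟩ := hdec V hV
    by_contra hcon
    push Not at hcon
    have hinj : Function.Injective (fun j : Idx => e.symm (c, ∅, j)) := by
      intro j j' h
      have := e.symm.injective h
      simpa using this
    have hmem : ∀ j : Idx, e.symm (c, ∅, j) ∈ Iic i₀ := by
      intro j
      by_contra hj
      rw [mem_Iic, not_le] at hj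
      exact hcon _ hj (by simp)
    have h1 : #Idx ≤ #(Iic i₀) :=
      Cardinal.mk_le_of_injective (f := fun j : Idx => (⟨e.symm (c, ∅, j), hmem j⟩ : Iic i₀))
        (fun j j' h => hinj (congrArg Subtype.val h))
    have h2 : #(Iic i₀) < Cardinal.continuum.{0} := by
      have : Iic i₀ = insert i₀ (Iio i₀) := by ext j; simp [le_iff_eq_or_lt]
      rw [this]
      refine lt_of_le_of_lt (Cardinal.mk_insert_le) ?_
      exact Cardinal.add_lt_of_lt Cardinal.aleph0_le_continuum (mk_Iio_Idx i₀)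
        (Cardinal.one_lt_aleph0.trans Cardinal.aleph0_lt_continuum)
    rw [hI] at h1
    exact absurd h2 (not_lt.2 h1)
  · intro c
    have hIne : Nonempty Idx := by
      rw [← Cardinal.mk_ne_zero_iff, hI]
      exact Cardinal.continuum_ne_zero
    exact ⟨e.symm (fun _ => ∅, c, Classical.arbitrary _), by simp⟩

/-- the main set of atoms -/
theorem exists_main_set (BB : Set (Set ℕ)) : ∃ S : Set Atom, Legal BB S ∧
    (∀ c ∈ BB, ∃ m ∈ S, ∃ m' ∈ S, tg m = tg m' ∧ sd m ≠ sd m' ∧ {n | vl m n ≠ vl m' n} = c) ∧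
    ∀ V : ℕ → Set Atom, (∀ n, IsOpen (V n)) → (∀ n, ¬ S ⊆ V n) →
      (∀ E : Finset Atom, (↑E : Set Atom) ⊆ S → (trace V ↑E).Nonempty) →
      ∃ A : Set ℕ, ∀ E : Finset Atom, (↑E : Set Atom) ⊆ S →
        (trace V ↑E ∩ A).Nonempty ∧ (trace V ↑E \ A).Nonempty := by
  obtain ⟨U, b, hU, hb⟩ := exists_enumeration
  obtain ⟨f, hf⟩ := exists_recursion BB U b
  refine ⟨Sfin f, legal_fin hf, ?_, ?_⟩
  · intro c hc
    obtain ⟨i, rfl⟩ := hb c
    obtain ⟨m, hm, m', hm', h⟩ := (hf i).special hc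
    exact ⟨m, ⟨i, hm⟩, m', ⟨i, hm'⟩, h⟩
  · intro V hVo hne hcov
    exact core hf V hVo (hU V hVo) hne hcov

/-- spaces embedded in the space of atoms -/
theorem splitOmegaOmega_of_embedding {Y : Type*} [TopologicalSpace Y] {j : Y → Atom}
    (hj : IsInducing j) {S : Set Atom} (hjS : range j = S)
    (hS : ∀ V : ℕ → Set Atom, (∀ n, IsOpen (V n)) → (∀ n, ¬ S ⊆ V n) →
      (∀ E : Finset Atom, (↑E : Set Atom) ⊆ S → (trace V ↑E).Nonempty) →
      ∃ A : Set ℕ, ∀ E : Finset Atom, (↑E : Set Atom) ⊆ S →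
        (trace V ↑E ∩ A).Nonempty ∧ (trace V ↑E \ A).Nonempty) :
    SplitOmegaOmega Y := by
  classical
  intro 𝒰 h𝒰
  have hsc : SecondCountableTopology Y := hj.secondCountableTopology
  -- a countable subcover
  obtain ⟨B, hBc, -, hB⟩ := exists_countable_basis Y
  let 𝒞 : Set (Finset (Set Y)) := {s | (↑s : Set (Set Y)) ⊆ B ∧ ∃ u ∈ 𝒰, (⋃₀ ↑s : Set Y) ⊆ u}
  have h𝒞c : 𝒞.Countable := by
    have h1 := Set.countable_ofPred_finite_subset hBc
    have h2 : MapsTo (fun E : Finset (Set Y) => (↑E : Set (Set Y)))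
        {E : Finset (Set Y) | (↑E : Set (Set Y)) ⊆ B}
        {t | t.Finite ∧ t ⊆ B} := fun E hE => ⟨Finset.finite_toSet E, hE⟩
    exact (h2.countable_of_injOn (Finset.coe_injective.injOn) h1).mono (fun s hs => hs.1)
  have hch : ∀ s : Finset (Set Y), ∃ u : Set Y, s ∈ 𝒞 → u ∈ 𝒰 ∧ (⋃₀ ↑s : Set Y) ⊆ u := by
    intro s
    by_cases hs : s ∈ 𝒞
    · obtain ⟨-, u, hu, hsu⟩ := hs
      exact ⟨u, fun _ => ⟨hu, hsu⟩⟩
    · exact ⟨∅, fun h => absurd h hs⟩
  choose φ hφ using hch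
  set 𝒱 : Set (Set Y) := φ '' 𝒞 with h𝒱
  have h𝒱c : 𝒱.Countable := h𝒞c.image φ
  have h𝒱𝒰 : 𝒱 ⊆ 𝒰 := by
    rintro _ ⟨s, hs, rfl⟩; exact (hφ s hs).1
  have h𝒱ω : ∀ F : Finset Y, ∃ u ∈ 𝒱, (↑F : Set Y) ⊆ u := by
    intro F
    obtain ⟨u, hu, hFu⟩ := h𝒰.2.2 F
    have : ∀ y : Y, ∃ v : Set Y, y ∈ F → v ∈ B ∧ y ∈ v ∧ v ⊆ u := by
      intro y
      by_cases hy : y ∈ F
      · obtain ⟨v, hv⟩ := hB.exists_subset_of_mem_open (hFu hy) (h𝒰.1 u hu)
        exact ⟨v, fun _ => hv⟩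
      · exact ⟨∅, fun h => absurd h hy⟩
    choose v hv using this
    have hs : F.image v ∈ 𝒞 := by
      refine ⟨?_, u, hu, ?_⟩
      · intro w hw
        obtain ⟨y, hy, rfl⟩ := Finset.mem_image.1 (Finset.mem_coe.1 hw)
        exact (hv y hy).1
      · rintro x ⟨w, hw, hxw⟩
        obtain ⟨y, hy, rfl⟩ := Finset.mem_image.1 (Finset.mem_coe.1 hw)
        exact (hv y hy).2.2 hxw
    refine ⟨φ (F.image v), ⟨_, hs, rfl⟩, ?_⟩
    intro y hy
    exact (hφ _ hs).2 ⟨v y, Finset.mem_coe.2 (Finset.mem_image_of_mem _ hy), (hv y hy).2.1⟩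
  have h𝒱i : 𝒱.Infinite := by
    intro hfin
    have : ∀ u : Set Y, ∃ y : Y, u ∈ 𝒱 → y ∉ u := by
      intro u
      by_cases hu : u ∈ 𝒱
      · have : u ≠ Set.univ := fun h => h𝒰.2.1 (h ▸ h𝒱𝒰 hu)
        obtain ⟨y, hy⟩ := (ne_univ_iff_exists_notMem u).1 this
        exact ⟨y, fun _ => hy⟩
      · obtain ⟨u0, hu0, -⟩ := h𝒰.2.2 ∅
        have : u0 ≠ Set.univ := fun h => h𝒰.2.1 (h ▸ hu0)
        obtain ⟨y, hy⟩ := (ne_univ_iff_exists_notMem u0).1 this
        exact ⟨y, fun h => absurd h hu⟩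
    choose y hy using this
    obtain ⟨u, hu, hFu⟩ := h𝒱ω (hfin.toFinset.image y)
    exact hy u hu (hFu (Finset.mem_coe.2 (Finset.mem_image_of_mem _ (hfin.mem_toFinset.2 hu))))
  -- enumerate
  have := h𝒱i.to_subtype
  have := h𝒱c.to_subtype
  obtain ⟨e⟩ := nonempty_equiv_of_countable (α := ℕ) (β := 𝒱)
  have hopen : ∀ n : ℕ, ∃ O : Set Atom, IsOpen O ∧ j ⁻¹' O = (e n : Set Y) := fun n =>
    hj.isOpen_iff.1 (h𝒰.1 _ (h𝒱𝒰 (e n).2))
  choose V hVo hV using hopen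
  have hne : ∀ n, ¬ S ⊆ V n := by
    intro n hn
    apply h𝒰.2.1
    have : (e n : Set Y) = Set.univ := by
      rw [← hV n, eq_univ_iff_forall]
      intro y
      exact hn (hjS ▸ mem_range_self y)
    exact this ▸ h𝒱𝒰 (e n).2
  have hlift : ∀ E : Finset Atom, (↑E : Set Atom) ⊆ S → ∃ F : Finset Y, F.image j = E := by
    intro E hE
    have := Finset.subset_set_image_iff (s := (Set.univ : Set Y)) (t := E) (f := j)
    rw [image_univ, hjS] at this
    obtain ⟨F, -, hF⟩ := this.1 hE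
    exact ⟨F, hF⟩
  have htr : ∀ (F : Finset Y) (n : ℕ), n ∈ trace V ↑(F.image j) ↔ (↑F : Set Y) ⊆ (e n : Set Y) := by
    intro F n
    rw [← hV n]
    simp only [trace, Finset.coe_image, mem_ofPred_eq, image_subset_iff]
  obtain ⟨A, hA⟩ := hS V hVo hne (by
    intro E hE
    obtain ⟨F, rfl⟩ := hlift E hE
    obtain ⟨u, hu, hFu⟩ := h𝒱ω F
    exact ⟨e.symm ⟨u, hu⟩, (htr F _).2 (by simpa using hFu)⟩)
  have hFS : ∀ F : Finset Y, (↑(F.image j) : Set Atom) ⊆ S := by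
    intro F
    rw [Finset.coe_image, ← hjS]
    exact image_subset_range _ _
  set 𝒱₁ : Set (Set Y) := (fun n => (e n : Set Y)) '' A with h𝒱₁
  have h𝒱₁𝒱 : 𝒱₁ ⊆ 𝒰 := by
    rintro _ ⟨n, -, rfl⟩; exact h𝒱𝒰 (e n).2
  refine ⟨𝒱₁, 𝒰 \ 𝒱₁, ?_, disjoint_sdiff_right, ⟨𝒱₁, Subset.rfl, ?_⟩, ⟨𝒰 \ 𝒱₁, Subset.rfl, ?_⟩⟩
  · rw [union_sdiff_self, union_eq_self_of_subset_left h𝒱₁𝒱]
  · refine ⟨fun u hu => h𝒰.1 u (h𝒱₁𝒱 hu), fun hu => h𝒰.2.1 (h𝒱₁𝒱 hu), fun F => ?_⟩
    obtain ⟨n, hn, hnA⟩ := (hA _ (hFS F)).1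
    exact ⟨e n, ⟨n, hnA, rfl⟩, (htr F n).1 hn⟩
  · refine ⟨fun u hu => h𝒰.1 u hu.1, fun hu => h𝒰.2.1 hu.1, fun F => ?_⟩
    obtain ⟨n, hn, hnA⟩ := (hA _ (hFS F)).2
    refine ⟨e n, ⟨h𝒱𝒰 (e n).2, ?_⟩, (htr F n).1 hn⟩
    rintro ⟨m, hm, hmn⟩
    have : m = n := e.injective (Subtype.ext hmn)
    exact hnA (this ▸ hm)

/-- the space of atoms embeds in the real line -/
lemma exists_atom_embedding : ∃ ι : Atom → ℝ, IsEmbedding ι := by
  have h1 : ∃ g : (ℕ → Bool) → ℝ, Continuous g ∧ Function.Injective g := by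
    obtain ⟨g, -, hg, hg'⟩ := IsClosed.exists_nat_bool_injection_of_not_countable
      (α := ℝ) (C := Set.univ) isClosed_univ (by
        rw [Set.countable_univ_iff]
        exact not_countable)
    exact ⟨g, hg, hg'⟩
  obtain ⟨g, hg, hg'⟩ := h1
  let c : Atom → (ℕ → Bool) := fun m n =>
    if n = 0 then sd m else if n % 2 = 1 then tg m ((n - 1) / 2) else vl m ((n - 1) / 2)
  have hc : Continuous c := by
    refine continuous_pi (fun n => ?_)
    simp only [c]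
    split_ifs
    · unfold sd; fun_prop
    · unfold tg; fun_prop
    · unfold vl; fun_prop
  have hci : Function.Injective c := by
    intro m m' h
    have h0 := congrFun h 0
    simp only [c, if_true] at h0
    have h1 : tg m = tg m' := by
      funext n
      have := congrFun h (2 * n + 1)
      have h3 : (2 * n + 1) % 2 = 1 := by omega
      have h4 : (2 * n + 1 - 1) / 2 = n := by omega
      simpa only [c, h3, h4, Nat.add_eq_zero_iff, one_ne_zero, and_false, if_false, if_true]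
        using this
    have h2 : vl m = vl m' := by
      funext n
      have := congrFun h (2 * n + 2)
      have h3 : (2 * n + 2) % 2 = 0 := by omega
      have h4 : (2 * n + 2 - 1) / 2 = n := by omega
      have h5 : 2 * n + 2 ≠ 0 := by omega
      simpa only [c, h3, h4, h5, zero_ne_one, if_false] using this
    exact Prod.ext h0 (Prod.ext h1 h2)
  refine ⟨g ∘ c, ?_⟩
  exact ((hg.comp hc).isClosedEmbedding (hg'.comp hci)).isEmbedding

end Pool.Agent.MP_bc74b8_gt
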