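import Mathlib
import Pool.Agent.Lib.MP_bc74b8_gt.Defs
import Pool.Agent.Lib.MP_bc74b8_gt.OmegaTau
import Pool.Agent.Lib.MP_bc74b8_gt.Space

set_option autoImplicit false

namespace Pool.Agent.MP_bc74b8_gt

open Set Topology TopologicalSpace

/-- no two disjoint subfamilies of `𝒱` with union `𝒱` both cover the space -/
def Unsplittable {Y : Type*} (𝒱 : Set (Set Y)) : Prop :=
  ∀ V W : Set (Set Y), V ∪ W = 𝒱 → Disjoint V W →
    ¬ ((∀ g, ∃ v ∈ V, g ∈ v) ∧ (∀ g, ∃ w ∈ W, g ∈ w))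

theorem powers_unsplittable {Y : Type*} [TopologicalSpace Y] {j : Y → Atom}
    (hj : Continuous j) {S : Set Atom} (hjS : range j = S) (p : Ultrafilter ℕ)
    (hp : (p : Filter ℕ) ≤ Filter.cofinite) (BB : Set (Set ℕ)) (h1 : ∀ A : Set ℕ, Aᶜ.Finite → A ∈ BB)
    (h2 : ∀ c ∈ BB, c ∈ p) (h3 : ∀ A ∈ p, ∃ c ∈ BB, c ⊆ A) (hL : Legal BB S)
    (hS : ∀ c ∈ BB, ∃ m ∈ S, ∃ m' ∈ S, tg m = tg m' ∧ sd m ≠ sd m' ∧
      {n | vl m n ≠ vl m' n} = c) (k : ℕ) (hk : 2 ≤ k) :
    ∃ 𝒱 : Set (Set (Fin k → Y)), IsOmegaCover 𝒱 ∧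
      ((∀ c ∈ BB, ∀ d ∈ BB, (c \ d).Finite ∨ (d \ c).Finite) → IsTauCover 𝒱) ∧
      Unsplittable 𝒱 := by
  classical
  let i0 : Fin k := ⟨0, by omega⟩
  let i1 : Fin k := ⟨1, by omega⟩
  have hi01 : i1 ≠ i0 := by simp [i0, i1]
  let v : ℕ → Set (Fin k → Y) := fun n =>
    {g | (∃ m < n, tg (j (g i0)) m ≠ tg (j (g i1)) m) ∨ sd (j (g i0)) = sd (j (g i1)) ∨
      vl (j (g i0)) n ≠ vl (j (g i1)) n}
  have hc0 : Continuous (fun g : Fin k → Y => j (g i0)) := hj.comp (continuous_apply i0)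
  have hc1 : Continuous (fun g : Fin k → Y => j (g i1)) := hj.comp (continuous_apply i1)
  have htg : ∀ m, Continuous (fun a : Atom => tg a m) := by
    intro m; unfold tg; fun_prop
  have hvl : ∀ m, Continuous (fun a : Atom => vl a m) := by
    intro m; unfold vl; fun_prop
  have hsd : Continuous (fun a : Atom => sd a) := by
    unfold sd; fun_prop
  have hvo : ∀ n, IsOpen (v n) := by
    intro n
    have e1 : v n = (⋃ m ∈ Finset.range n, {g | tg (j (g i0)) m ≠ tg (j (g i1)) m}) ∪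
        ({g | sd (j (g i0)) = sd (j (g i1))} ∪ {g | vl (j (g i0)) n ≠ vl (j (g i1)) n}) := by
      ext g
      simp only [v, mem_ofPred_eq, mem_union, mem_iUnion, Finset.mem_range, exists_prop]
    rw [e1]
    have key : ∀ (a b : (Fin k → Y) → Bool) (R : Bool × Bool → Prop), Continuous a → Continuous b →
        IsOpen {g | R (a g, b g)} := by
      intro a b R ha hb
      exact (isOpen_discrete {q : Bool × Bool | R q}).preimage (ha.prodMk hb)
    refine (isOpen_biUnion (fun m _ => ?_)).union (IsOpen.union ?_ ?_)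
    · exact key _ _ (fun q => q.1 ≠ q.2) ((htg m).comp hc0) ((htg m).comp hc1)
    · exact key _ _ (fun q => q.1 = q.2) (hsd.comp hc0) (hsd.comp hc1)
    · exact key _ _ (fun q => q.1 ≠ q.2) ((hvl n).comp hc0) ((hvl n).comp hc1)
  -- traces
  let e : (Fin k → Y) → Set ℕ := fun g => {n | g ∈ v n}
  have he : ∀ g, e g ∈ BB := by
    intro g
    have hm0 : j (g i0) ∈ S := hjS ▸ mem_range_self _
    have hm1 : j (g i1) ∈ S := hjS ▸ mem_range_self _
    by_cases ht : tg (j (g i0)) = tg (j (g i1))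
    · by_cases hs : sd (j (g i0)) = sd (j (g i1))
      · apply h1
        convert Set.finite_empty
        rw [compl_empty_iff, eq_univ_iff_forall]
        intro n
        exact Or.inr (Or.inl hs)
      · have := hL _ hm0 _ hm1 ht hs
        convert this using 1
        ext n
        simp only [e, v, mem_ofPred_eq, ht, hs, ne_eq, not_true_eq_false, and_false, exists_false,
          false_or]
    · apply h1
      have : ∃ m, tg (j (g i0)) m ≠ tg (j (g i1)) m := by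
        by_contra hcon
        push Not at hcon
        exact ht (funext hcon)
      obtain ⟨m, hm⟩ := this
      refine (Set.finite_le_nat m).subset ?_
      intro n hn
      by_contra hmn
      apply hn
      left
      exact ⟨m, not_le.1 hmn, hm⟩
  have hexg : ∀ c ∈ BB, ∃ g, e g = c := by
    intro c hc
    obtain ⟨m, hm, m', hm', ht, hs, hcc⟩ := hS c hc
    rw [← hjS] at hm hm'
    obtain ⟨y, rfl⟩ := hm
    obtain ⟨y', rfl⟩ := hm'
    refine ⟨fun i => if i = i0 then y else y', ?_⟩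
    rw [← hcc]
    ext n
    simp only [e, v, mem_ofPred_eq, if_true, hi01, if_false, ht, hs, ne_eq, not_true_eq_false,
      and_false, exists_false, false_or]
  have hpick : ∀ n, ∃ g, g ∉ v n ∧ ∀ m, m ≠ n → g ∈ v m := by
    intro n
    obtain ⟨g, hg⟩ := hexg {n}ᶜ (h1 _ (by rw [compl_compl]; exact finite_singleton n))
    refine ⟨g, ?_, ?_⟩
    · intro h
      have : n ∈ e g := h
      rw [hg] at this
      exact this rfl
    · intro m hm
      have : m ∈ e g := by rw [hg]; exact hm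
      exact this
  have hvinj : Function.Injective v := by
    intro n m hnm
    by_contra hne
    obtain ⟨g, hg, hg'⟩ := hpick n
    exact hg (hnm ▸ hg' m (Ne.symm hne))
  have hvne : ∀ n, v n ≠ univ := by
    intro n h
    obtain ⟨g, hg, -⟩ := hpick n
    exact hg (h ▸ mem_univ g)
  have hcinf : ∀ c ∈ p, Set.Infinite c := by
    intro c hc hfin
    have : cᶜ ∈ (p : Filter ℕ) := hp (by simpa using hfin)
    exact (Ultrafilter.compl_mem_iff_notMem.1 this) hc
  have hrange : range v = range v := rfl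
  refine ⟨range v, ⟨?_, ?_, ?_⟩, ?_, ?_⟩
  · rintro _ ⟨n, rfl⟩; exact hvo n
  · rintro ⟨n, hn⟩; exact hvne n hn
  · intro F
    have : (⋂ g ∈ F, e g) ∈ p := by
      have := (Filter.biInter_finset_mem (f := (p : Filter ℕ)) (s := e) F).2
        (fun g _ => h2 _ (he g))
      exact this
    obtain ⟨n, hn⟩ := Filter.nonempty_of_mem (Ultrafilter.mem_coe.2 this)
    refine ⟨v n, ⟨n, rfl⟩, ?_⟩
    intro g hg
    simp only [mem_iInter] at hn
    exact hn g hg
  · intro hlin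
    refine ⟨?_, ?_, ?_, ?_⟩
    · rintro _ ⟨n, rfl⟩; exact hvo n
    · rintro ⟨n, hn⟩; exact hvne n hn
    · intro g
      have h4 := (hcinf _ (h2 _ (he g))).image (f := v) hvinj.injOn
      refine h4.mono ?_
      rintro _ ⟨n, hn, rfl⟩
      exact ⟨⟨n, rfl⟩, hn⟩
    · intro x y
      have key : ∀ x y, (e x \ e y).Finite → {u ∈ range v | x ∈ u ∧ y ∉ u}.Finite := by
        intro x y hfin
        refine (hfin.image v).subset ?_
        rintro _ ⟨⟨n, rfl⟩, hn⟩
        exact ⟨n, hn, rfl⟩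
      rcases hlin _ (he x) _ (he y) with h | h
      · exact Or.inl (key x y h)
      · exact Or.inr (key y x h)
  · intro V W hVW hd ⟨hV, hW⟩
    by_cases hA : {n | v n ∈ V} ∈ p
    · obtain ⟨c, hc, hcA⟩ := h3 _ hA
      obtain ⟨g, rfl⟩ := hexg c hc
      obtain ⟨w, hw, hgw⟩ := hW g
      have : w ∈ range v := hVW ▸ Or.inr hw
      obtain ⟨n, rfl⟩ := this
      exact Set.disjoint_left.1 hd (hcA hgw) hw
    · have hA' : {n | v n ∈ V}ᶜ ∈ p := Ultrafilter.compl_mem_iff_notMem.2 hA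
      obtain ⟨c, hc, hcA⟩ := h3 _ hA'
      obtain ⟨g, rfl⟩ := hexg c hc
      obtain ⟨w, hw, hgw⟩ := hV g
      have : w ∈ range v := hVW ▸ Or.inl hw
      obtain ⟨n, rfl⟩ := this
      exact hcA hgw hw

/-- The main construction. -/
theorem exists_space (p : Ultrafilter ℕ)
    (hp : (p : Filter ℕ) ≤ Filter.cofinite) (BB : Set (Set ℕ)) (h1 : ∀ A : Set ℕ, Aᶜ.Finite → A ∈ BB)
    (h2 : ∀ c ∈ BB, c ∈ p) (h3 : ∀ A ∈ p, ∃ c ∈ BB, c ⊆ A) :
    ∃ X : Set ℝ, SplitOmegaOmega X ∧ ∀ k : ℕ, 2 ≤ k →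
      ∃ 𝒱 : Set (Set (Fin k → X)), IsOmegaCover 𝒱 ∧
        ((∀ c ∈ BB, ∀ d ∈ BB, (c \ d).Finite ∨ (d \ c).Finite) → IsTauCover 𝒱) ∧
        Unsplittable 𝒱 := by
  obtain ⟨S, hL, hS, hcore⟩ := exists_main_set BB
  obtain ⟨ι, hι⟩ := exists_atom_embedding
  let h := hι.homeomorphImage S
  let j : (ι '' S : Set ℝ) → Atom := fun x => (h.symm x : Atom)
  have hj : IsInducing j := by
    exact (IsInducing.subtypeVal).comp h.symm.isInducing
  have hjS : range j = S := by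
    ext m
    constructor
    · rintro ⟨x, rfl⟩; exact (h.symm x).2
    · intro hm
      exact ⟨h ⟨m, hm⟩, by simp [j]⟩
  refine ⟨ι '' S, splitOmegaOmega_of_embedding hj hjS hcore, ?_⟩
  intro k hk
  exact powers_unsplittable hj.continuous hjS p hp BB h1 h2 h3 hL hS k hk

/-- Split(Omega, Omega) is not preserved by finite powers -/
theorem splitOmegaOmega_not_preserved :
    ∃ X : Set ℝ, SplitOmegaOmega X ∧ ∀ k : ℕ, 2 ≤ k → ¬ SplitOmegaOmega (Fin k → X) := by
  have hp : ((Filter.hyperfilter ℕ : Ultrafilter ℕ) : Filter ℕ) ≤ Filter.cofinite :=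
    Filter.hyperfilter_le_cofinite
  obtain ⟨X, hX, hk⟩ := exists_space (Filter.hyperfilter ℕ) hp
    {A | A ∈ (Filter.hyperfilter ℕ : Ultrafilter ℕ)}
    (fun A hA => hp (by simpa using hA)) (fun c hc => hc) (fun A hA => ⟨A, hA, Subset.rfl⟩)
  refine ⟨X, hX, fun k hk2 hsplit => ?_⟩
  obtain ⟨𝒱, hω, -, hun⟩ := hk k hk2
  obtain ⟨V, W, hVW, hd, ⟨V', hV', hV''⟩, ⟨W', hW', hW''⟩⟩ := hsplit 𝒱 hω
  refine hun V W hVW hd ⟨fun g => ?_, fun g => ?_⟩
  · obtain ⟨v, hv, hgv⟩ := hV''.2.2 {g}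
    exact ⟨v, hV' hv, hgv (by simp)⟩
  · obtain ⟨v, hv, hgv⟩ := hW''.2.2 {g}
    exact ⟨v, hW' hv, hgv (by simp)⟩

end Pool.Agent.MP_bc74b8_gt
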