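import Mathlib
import Pool.Agent.Lib.MP_bc74b8_gt.Defs
import Pool.Agent.Lib.MP_bc74b8_gt.OmegaTau
import Pool.Agent.Lib.MP_bc74b8_gt.Powers

set_option autoImplicit false

namespace Pool.Agent.MP_bc74b8_gt

open Set Topology TopologicalSpace

lemma IsTauCover.isOmegaCover {Y : Type*} [TopologicalSpace Y] [Nonempty Y] {U : Set (Set Y)}
    (h : IsTauCover U) : IsOmegaCover U := by
  classical
  refine ⟨h.1, h.2.1, fun F => ?_⟩
  have key : ∀ F : Finset Y, ∃ y : Y, ∀ x ∈ F, {u ∈ U | y ∈ u ∧ x ∉ u}.Finite := by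
    intro F
    induction F using Finset.induction_on with
    | empty => exact ⟨Classical.arbitrary Y, by simp⟩
    | insert a F _ ih =>
      obtain ⟨y, hy⟩ := ih
      rcases h.2.2.2 y a with h1 | h1
      · refine ⟨y, fun x hx => ?_⟩
        rcases Finset.mem_insert.1 hx with rfl | hx
        · exact h1
        · exact hy x hx
      · refine ⟨a, fun x hx => ?_⟩
        rcases Finset.mem_insert.1 hx with rfl | hx
        · convert Set.finite_empty
          ext u; simp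
        · refine (h1.union (hy x hx)).subset ?_
          rintro u ⟨hu, hau, hxu⟩
          by_cases hyu : y ∈ u
          · exact Or.inr ⟨hu, hyu, hxu⟩
          · exact Or.inl ⟨hu, hau, hyu⟩
  obtain ⟨y, hy⟩ := key F
  have hfin : (⋃ x ∈ F, {u ∈ U | y ∈ u ∧ x ∉ u}).Finite :=
    Set.Finite.biUnion (Finset.finite_toSet F) (fun x hx => hy x hx)
  obtain ⟨u, ⟨hu, hyu⟩, hu'⟩ := ((h.2.2.1 y).sdiff hfin).nonempty
  refine ⟨u, hu, fun x hx => ?_⟩
  by_contra hxu
  exact hu' (mem_biUnion (Finset.mem_coe.1 hx) ⟨hu, hyu, hxu⟩)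

lemma omega_large {Y : Type*} [TopologicalSpace Y] {V : Set (Set Y)}
    (hV : IsOmegaCover V) (y : Y) : {u ∈ V | y ∈ u}.Infinite := by
  classical
  intro hfin
  have : ∀ u : Set Y, ∃ x : Y, u ∈ V → x ∉ u := by
    intro u
    by_cases hu : u ∈ V
    · have : u ≠ Set.univ := fun h => hV.2.1 (h ▸ hu)
      obtain ⟨x, hx⟩ := (ne_univ_iff_exists_notMem u).1 this
      exact ⟨x, fun _ => hx⟩
    · exact ⟨y, fun h => absurd h hu⟩
  choose x hx using this
  obtain ⟨u, hu, hFu⟩ := hV.2.2 (insert y (hfin.toFinset.image x))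
  have hyu : y ∈ u := hFu (by simp)
  have : x u ∈ u := hFu (by
    rw [Finset.mem_coe]
    exact Finset.mem_insert_of_mem (Finset.mem_image_of_mem _ (hfin.mem_toFinset.2 ⟨hu, hyu⟩)))
  exact hx u hu this

lemma SplitOmegaOmega.splitTauTau {Y : Type*} [TopologicalSpace Y] (h : SplitOmegaOmega Y) :
    SplitTauTau Y := by
  intro U hU
  rcases isEmpty_or_nonempty Y with hY | hY
  · exact ⟨U, ∅, by simp, by simp, ⟨∅, by simp, by simp, by simp, by simp, by simp⟩,
      ⟨∅, by simp, by simp, by simp, by simp, by simp⟩⟩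
  · obtain ⟨V, W, hVW, hd, ⟨V', hV', hV''⟩, ⟨W', hW', hW''⟩⟩ := h U hU.isOmegaCover
    have key : ∀ Z : Set (Set Y), Z ⊆ U → IsOmegaCover Z → IsTauCover Z := by
      intro Z hZ hZω
      refine ⟨hZω.1, hZω.2.1, omega_large hZω, fun x y => ?_⟩
      rcases hU.2.2.2 x y with h1 | h1
      · exact Or.inl (h1.subset (fun u hu => ⟨hZ hu.1, hu.2⟩))
      · exact Or.inr (h1.subset (fun u hu => ⟨hZ hu.1, hu.2⟩))
    refine ⟨V, W, hVW, hd, ⟨V', hV', key V' (hV'.trans ?_) hV''⟩,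
      ⟨W', hW', key W' (hW'.trans ?_) hW''⟩⟩
    · rw [← hVW]; exact subset_union_left
    · rw [← hVW]; exact subset_union_right

/-- From a nonprincipal ultrafilter with a linear base, a set of reals with `Split(Tau, Tau)`
none of whose higher finite powers has this property. -/
theorem tauTau_not_preserved {p : Ultrafilter ℕ} (hp : (p : Filter ℕ) ≤ Filter.cofinite)
    (hlin : HasLinearBase p) :
    ∃ X : Set ℝ, SplitTauTau X ∧ ∀ k : ℕ, 2 ≤ k → ¬ SplitTauTau (Fin k → X) := by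
  obtain ⟨B, hB, hB', hB''⟩ := hlin
  let BB : Set (Set ℕ) := {c | ∃ b ∈ insert Set.univ B, ∃ F : Set ℕ, F.Finite ∧ c = b \ F}
  have hBp : ∀ b ∈ insert Set.univ B, b ∈ p := by
    rintro b (rfl | hb)
    · exact Filter.univ_mem
    · exact hB b hb
  have hBl : ∀ b ∈ insert Set.univ B, ∀ c ∈ insert Set.univ B,
      (b \ c).Finite ∨ (c \ b).Finite := by
    rintro b (rfl | hb) c (rfl | hc)
    · left; simp
    · right; simp
    · left; simp
    · exact hB'' b hb c hc
  obtain ⟨X, hX, hk⟩ := exists_space p hp BB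
    (by
      intro A hA
      refine ⟨Set.univ, mem_insert _ _, Aᶜ, hA, ?_⟩
      simp)
    (by
      rintro c ⟨b, hb, F, hF, rfl⟩
      have h1 : Fᶜ ∈ (p : Filter ℕ) := hp (by simpa using hF)
      exact Filter.inter_mem (hBp b hb) h1)
    (by
      intro A hA
      obtain ⟨b, hb, hbA⟩ := hB' A hA
      exact ⟨b, ⟨b, mem_insert_of_mem _ hb, ∅, finite_empty, by simp⟩, hbA⟩)
  refine ⟨X, hX.splitTauTau, fun k hk2 hsplit => ?_⟩
  obtain ⟨𝒱, -, hτ, hun⟩ := hk k hk2
  have hτ' := hτ (by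
    rintro c ⟨b, hb, F, hF, rfl⟩ d ⟨b', hb', F', hF', rfl⟩
    have key : ∀ (b b' F F' : Set ℕ), F'.Finite → (b \ b').Finite →
        ((b \ F) \ (b' \ F')).Finite := by
      intro b b' F F' hF' h
      refine (h.union hF').subset ?_
      rintro n ⟨⟨h1, h2⟩, h3⟩
      by_cases h4 : n ∈ b'
      · right
        by_contra h5
        exact h3 ⟨h4, h5⟩
      · exact Or.inl ⟨h1, h4⟩
    rcases hBl b hb b' hb' with h | h
    · exact Or.inl (key b b' F F' hF' h)
    · exact Or.inr (key b' b F' F hF h))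
  obtain ⟨V, W, hVW, hd, ⟨V', hV', hV''⟩, ⟨W', hW', hW''⟩⟩ := hsplit 𝒱 hτ'
  refine hun V W hVW hd ⟨fun g => ?_, fun g => ?_⟩
  · obtain ⟨v, hv, hgv⟩ := (hV''.2.2.1 g).nonempty
    exact ⟨v, hV' hv, hgv⟩
  · obtain ⟨v, hv, hgv⟩ := (hW''.2.2.1 g).nonempty
    exact ⟨v, hW' hv, hgv⟩

/-- If no nonprincipal ultrafilter on the natural numbers has a linear base, then every
second countable space has `Split(Tau, Tau)`. -/
theorem splitTauTau_of_no_linear
    (hno : ¬ ∃ p : Ultrafilter ℕ, (p : Filter ℕ) ≤ Filter.cofinite ∧ HasLinearBase p)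
    (Y : Type*) [TopologicalSpace Y] [SecondCountableTopology Y] : SplitTauTau Y := by
  classical
  intro 𝒰 h𝒰
  rcases isEmpty_or_nonempty Y with hY | hY
  · exact ⟨𝒰, ∅, by simp, by simp, ⟨∅, by simp, by simp, by simp, by simp, by simp⟩,
      ⟨∅, by simp, by simp, by simp, by simp, by simp⟩⟩
  obtain ⟨B, hBc, -, hB⟩ := exists_countable_basis Y
  have hG : ∀ b : Set Y, ∃ G : Set (Set Y), G ⊆ {u ∈ 𝒰 | b ⊆ u} ∧ G.Countable ∧
      (G.Infinite ∨ G = {u ∈ 𝒰 | b ⊆ u}) := by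
    intro b
    by_cases hfin : {u ∈ 𝒰 | b ⊆ u}.Finite
    · exact ⟨_, Subset.rfl, hfin.countable, Or.inr rfl⟩
    · have hinf : {u ∈ 𝒰 | b ⊆ u}.Infinite := hfin
      have := hinf.to_subtype
      let e := Infinite.natEmbedding {u ∈ 𝒰 | b ⊆ u}
      refine ⟨range (fun n => (e n : Set Y)), ?_, countable_range _, Or.inl ?_⟩
      · rintro _ ⟨n, rfl⟩; exact (e n).2
      · exact infinite_range_of_injective (Subtype.val_injective.comp e.injective)
  choose G hGs hGc hGi using hG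
  set 𝒱 : Set (Set Y) := ⋃ b ∈ B, G b with h𝒱
  have h𝒱c : 𝒱.Countable := hBc.biUnion (fun b _ => hGc b)
  have h𝒱𝒰 : 𝒱 ⊆ 𝒰 := iUnion₂_subset (fun b _ u hu => (hGs b hu).1)
  have hlarge : ∀ y : Y, {u ∈ 𝒱 | y ∈ u}.Infinite := by
    intro y
    by_cases h : ∃ b ∈ B, y ∈ b ∧ (G b).Infinite
    · obtain ⟨b, hb, hyb, hinf⟩ := h
      refine hinf.mono (fun u hu => ⟨mem_biUnion hb hu, (hGs b hu).2 hyb⟩)
    · push Not at h
      refine (h𝒰.2.2.1 y).mono ?_
      rintro u ⟨hu, hyu⟩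
      refine ⟨?_, hyu⟩
      obtain ⟨b, hb, hyb, hbu⟩ := hB.exists_subset_of_mem_open hyu (h𝒰.1 u hu)
      refine mem_biUnion hb ?_
      rcases hGi b with h1 | h1
      · exact absurd (h b hb hyb) h1
      · rw [h1]; exact ⟨hu, hbu⟩
  have h𝒱i : 𝒱.Infinite := (hlarge (Classical.arbitrary Y)).mono (fun u hu => hu.1)
  have := h𝒱i.to_subtype
  have := h𝒱c.to_subtype
  obtain ⟨e⟩ := nonempty_equiv_of_countable (α := ℕ) (β := 𝒱)
  have hinj : Function.Injective (fun n => (e n : Set Y)) :=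
    Subtype.val_injective.comp e.injective
  let t : Y → Set ℕ := fun y => {n | y ∈ (e n : Set Y)}
  have htim : ∀ (P : Set Y → Prop), {u ∈ 𝒱 | P u} = (fun n => (e n : Set Y)) '' {n | P (e n)} := by
    intro P
    ext u
    constructor
    · rintro ⟨hu, hP⟩
      exact ⟨e.symm ⟨u, hu⟩, by simpa using hP, by simp⟩
    · rintro ⟨n, hn, rfl⟩
      exact ⟨(e n).2, hn⟩
  have htinf : ∀ y, (t y).Infinite := by
    intro y hfin
    apply hlarge y
    rw [htim (fun u => y ∈ u)]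
    exact hfin.image _
  have htlin : ∀ x y, (t x \ t y).Finite ∨ (t y \ t x).Finite := by
    have key : ∀ x y, {u ∈ 𝒰 | x ∈ u ∧ y ∉ u}.Finite → (t x \ t y).Finite := by
      intro x y h
      refine Set.Finite.of_finite_image (f := fun n => (e n : Set Y)) (h.subset ?_) hinj.injOn
      rintro _ ⟨n, ⟨hn, hn'⟩, rfl⟩
      exact ⟨h𝒱𝒰 (e n).2, hn, hn'⟩
    intro x y
    rcases h𝒰.2.2.2 x y with h | h
    · exact Or.inl (key x y h)
    · exact Or.inr (key y x h)
  -- a splitting set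
  have hA : ∃ A : Set ℕ, ∀ y, (t y ∩ A).Infinite ∧ (t y \ A).Infinite := by
    by_contra hcon
    push Not at hcon
    apply hno
    let F : Filter ℕ :=
      { sets := {A | ∃ y, (t y \ A).Finite}
        univ_sets := ⟨Classical.arbitrary Y, by simp⟩
        sets_of_superset := by
          rintro A A' ⟨y, hy⟩ hAA'
          exact ⟨y, hy.subset (sdiff_subset_sdiff_right hAA')⟩
        inter_sets := by
          rintro A A' ⟨y, hy⟩ ⟨w, hw⟩
          rcases htlin y w with h | h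
          · refine ⟨y, ((hy.union h).union hw).subset ?_⟩
            rintro n ⟨hn, hn'⟩
            by_cases h1 : n ∈ A
            · by_cases h2 : n ∈ t w
              · exact Or.inr ⟨h2, fun h3 => hn' ⟨h1, h3⟩⟩
              · exact Or.inl (Or.inr ⟨hn, h2⟩)
            · exact Or.inl (Or.inl ⟨hn, h1⟩)
          · refine ⟨w, ((hw.union h).union hy).subset ?_⟩
            rintro n ⟨hn, hn'⟩
            by_cases h1 : n ∈ A'
            · by_cases h2 : n ∈ t y
              · exact Or.inr ⟨h2, fun h3 => hn' ⟨h3, h1⟩⟩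
              · exact Or.inl (Or.inr ⟨hn, h2⟩)
            · exact Or.inl (Or.inl ⟨hn, h1⟩) }
    have hF : ∀ A, A ∈ F ↔ ∃ y, (t y \ A).Finite := fun A => Iff.rfl
    have hFc : ∀ A : Set ℕ, Aᶜ ∉ F ↔ A ∈ F := by
      intro A
      constructor
      · intro h
        by_contra h'
        rw [hF] at h h'
        push Not at h h'
        obtain ⟨y, hy⟩ := hcon A
        apply h y
        have h1 : ¬ (t y ∩ A).Infinite := fun h1 => absurd (h' y) (not_not.2 (hy h1))
        rw [not_infinite] at h1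
        convert h1 using 1
        rw [sdiff_compl]
      · intro h h'
        have h1 := F.inter_sets h h'
        obtain ⟨y, hy⟩ := (hF _).1 h1
        rw [inter_compl_self, sdiff_empty] at hy
        exact htinf y hy
    refine ⟨Ultrafilter.ofComplNotMemIff F hFc, ?_, ?_⟩
    · intro A hA
      change A ∈ F
      rw [hF]
      refine ⟨Classical.arbitrary Y, ?_⟩
      rw [Filter.mem_cofinite] at hA
      exact hA.subset (fun n hn => hn.2)
    · refine ⟨{c | ∃ y, ∃ G : Set ℕ, G.Finite ∧ c = t y \ G}, ?_, ?_, ?_⟩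
      · rintro c ⟨y, G, hG, rfl⟩
        change _ ∈ F
        rw [hF]
        refine ⟨y, hG.subset ?_⟩
        rintro n ⟨hn, hn'⟩
        by_contra h
        exact hn' ⟨hn, h⟩
      · intro A hA
        obtain ⟨y, hy⟩ : A ∈ F := hA
        refine ⟨t y \ (t y \ A), ⟨y, _, hy, rfl⟩, ?_⟩
        rintro n ⟨hn, hn'⟩
        by_contra h
        exact hn' ⟨hn, h⟩
      · rintro c ⟨y, G, hG, rfl⟩ d ⟨w, H, hH, rfl⟩
        have key : ∀ (b b' F F' : Set ℕ), F'.Finite → (b \ b').Finite →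
            ((b \ F) \ (b' \ F')).Finite := by
          intro b b' F F' hF' h
          refine (h.union hF').subset ?_
          rintro n ⟨⟨h1, h2⟩, h3⟩
          by_cases h4 : n ∈ b'
          · right
            by_contra h5
            exact h3 ⟨h4, h5⟩
          · exact Or.inl ⟨h1, h4⟩
        rcases htlin y w with h | h
        · exact Or.inl (key _ _ _ _ hH h)
        · exact Or.inr (key _ _ _ _ hG h)
  obtain ⟨A, hA⟩ := hA
  have hsub : ∀ C : Set ℕ, (fun n => (e n : Set Y)) '' C ⊆ 𝒰 := by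
    rintro C _ ⟨n, -, rfl⟩; exact h𝒱𝒰 (e n).2
  have htau : ∀ C : Set ℕ, (∀ y, (t y ∩ C).Infinite) →
      IsTauCover ((fun n => (e n : Set Y)) '' C) := by
    intro C hC
    refine ⟨fun u hu => h𝒰.1 u (hsub C hu), fun hu => h𝒰.2.1 (hsub C hu), fun y => ?_,
      fun x y => ?_⟩
    · refine ((hC y).image (f := fun n => (e n : Set Y)) hinj.injOn).mono ?_
      rintro _ ⟨n, ⟨hn, hnC⟩, rfl⟩
      exact ⟨⟨n, hnC, rfl⟩, hn⟩
    · rcases h𝒰.2.2.2 x y with h1 | h1
      · exact Or.inl (h1.subset (fun u hu => ⟨hsub C hu.1, hu.2⟩))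
      · exact Or.inr (h1.subset (fun u hu => ⟨hsub C hu.1, hu.2⟩))
  refine ⟨(fun n => (e n : Set Y)) '' A, 𝒰 \ (fun n => (e n : Set Y)) '' A, ?_,
    disjoint_sdiff_right, ⟨_, Subset.rfl, htau A (fun y => (hA y).1)⟩,
    ⟨(fun n => (e n : Set Y)) '' Aᶜ, ?_, htau Aᶜ (fun y => ?_)⟩⟩
  · rw [union_sdiff_self, union_eq_self_of_subset_left (hsub A)]
  · rintro _ ⟨n, hn, rfl⟩
    refine ⟨h𝒱𝒰 (e n).2, ?_⟩
    rintro ⟨m, hm, hmn⟩
    exact hn (hinj hmn ▸ hm)
  · have := (hA y).2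
    rwa [sdiff_eq] at this

theorem splitTauTau_preserved_iff :
    (∀ X : Set ℝ, SplitTauTau X → ∀ n : ℕ, 1 ≤ n → SplitTauTau (Fin n → X)) ↔
      ¬ ∃ p : Ultrafilter ℕ, (p : Filter ℕ) ≤ Filter.cofinite ∧ HasLinearBase p := by
  constructor
  · rintro h ⟨p, hp, hlin⟩
    obtain ⟨X, hX, hk⟩ := tauTau_not_preserved hp hlin
    exact hk 2 le_rfl (h X hX 2 (by norm_num))
  · intro hno X _ n _
    exact splitTauTau_of_no_linear hno _

end Pool.Agent.MP_bc74b8_gt
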