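import Mathlib
import Pool.Agent.Lib.MP_bc74b8_gt.Defs
import Pool.Agent.Lib.MP_bc74b8_gt.Measure
import Pool.Agent.Lib.MP_bc74b8_gt.TauTau

set_option autoImplicit false

namespace Pool.Agent.Results.MP_bc74b8_gt.AtLeastOne

open Pool.Agent.MP_bc74b8_gt

/-- At least one of `Split(Omega, Omega)`, `Split(Omega, Tau)`, `Split(Tau, Tau)` is preserved
under finite powers if and only if either there is no nonprincipal ultrafilter on the natural
numbers with a base linearly ordered by almost inclusion, or every set of reals with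
`Split(Omega, Tau)` has `Split(Omega, Gamma)`. -/
theorem result :
    ((∀ X : Set ℝ, SplitOmegaOmega X → ∀ n : ℕ, 1 ≤ n → SplitOmegaOmega (Fin n → X)) ∨
      (∀ X : Set ℝ, SplitOmegaTau X → ∀ n : ℕ, 1 ≤ n → SplitOmegaTau (Fin n → X)) ∨
      (∀ X : Set ℝ, SplitTauTau X → ∀ n : ℕ, 1 ≤ n → SplitTauTau (Fin n → X))) ↔
    ((¬ ∃ p : Ultrafilter ℕ, (p : Filter ℕ) ≤ Filter.cofinite ∧ HasLinearBase p) ∨
      (∀ X : Set ℝ, SplitOmegaTau X → SplitOmegaGamma X)) := by
  constructor
  · rintro (h | h | h)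
    · exfalso
      obtain ⟨X, hX, hk⟩ := splitOmegaOmega_not_preserved
      exact hk 2 le_rfl (h X hX 2 (by norm_num))
    · exact Or.inr (fun X hX =>
        (splitOmegaTau_pi_iff X 2 le_rfl).1 (h X hX 2 (by norm_num)))
    · exact Or.inl (splitTauTau_preserved_iff.1 h)
  · rintro (h | h)
    · exact Or.inr (Or.inr (splitTauTau_preserved_iff.2 h))
    · refine Or.inr (Or.inl (fun X hX n hn => ?_))
      exact (((SplitOmegaGamma.binOG (h X hX)).pi n).splitOmegaGamma).splitOmegaTau

end Pool.Agent.Results.MP_bc74b8_gt.AtLeastOne
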